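import Mathlib

/-!
# Counting: words avoiding a letter which depends on the earlier letters; existence of a design
-/

set_option autoImplicit false

open Finset

namespace Pool.Agent.H55.ES

/-- The number of words over an alphabet of `C` letters whose `i`-th letter avoids one letter
depending only on the earlier letters is at most `(C - 1) ^ m`. -/
theorem surv_card (C m : ℕ) [NeZero C] (bad : Fin m → (Fin m → ZMod C) → ZMod C)
    (hbad : ∀ i c c', (∀ l, l < i → c l = c' l) → bad i c = bad i c') :
    (univ.filter (fun c : Fin m → ZMod C => ∀ i, c i ≠ bad i c)).card ≤ (C - 1) ^ m := by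
  classical
  have h1 : (Fintype.piFinset (fun _ : Fin m => (univ : Finset (ZMod C)).erase 0)).card =
      (C - 1) ^ m := by
    rw [Fintype.card_piFinset]
    simp [Finset.card_erase_of_mem, ZMod.card]
  rw [← h1]
  refine Finset.card_le_card_of_injOn (fun c i => c i - bad i c) ?_ ?_
  · intro c hc
    rw [Finset.mem_coe, mem_filter] at hc
    rw [Finset.mem_coe, Fintype.mem_piFinset]
    intro i
    rw [Finset.mem_erase]
    exact ⟨sub_ne_zero.mpr (hc.2 i), mem_univ _⟩
  · intro c _ c' _ h
    have key : ∀ k : ℕ, ∀ i : Fin m, i.val = k → c i = c' i := by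
      intro k
      induction k using Nat.strong_induction_on with
      | _ k ih =>
        intro i hi
        have h2 := congrFun h i
        simp only at h2
        have h3 : bad i c = bad i c' := hbad i c c' fun l hl => ih l.val (by
          rw [← hi]
          exact hl) l rfl
        rw [h3] at h2
        exact sub_left_injective h2
    funext i
    exact key i.val i rfl

/-- Existence of a design by counting. -/
theorem design {K n : ℕ} [NeZero K] {A V W : Type*} [Fintype A] [Nonempty A] [Fintype V]
    [Fintype W] (τ : V → Fin n → ZMod K) (S : W → Fin n → Finset A) (θ : ℝ) (hθ : 0 ≤ θ)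
    (hS : ∀ w j, ((S w j).card : ℝ) ≤ θ * Fintype.card A)
    (h : (Fintype.card V : ℝ) * Fintype.card W * θ ^ n < 1) :
    ∃ c : ZMod K → A, ∀ v, Function.Injective (τ v) → ∀ w, ∃ j, c (τ v j) ∉ S w j := by
  classical
  by_contra hcon
  push Not at hcon
  have hA : (0 : ℝ) < (Fintype.card A : ℝ) := by exact_mod_cast Fintype.card_pos
  -- the bad designs for `v`, `w`
  obtain ⟨F, hF⟩ : ∃ F : V × W → Finset (ZMod K → A), ∀ p, F p =
      univ.filter (fun c => Function.Injective (τ p.1) ∧ ∀ j, c (τ p.1 j) ∈ S p.2 j) :=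
    ⟨_, fun _ => rfl⟩
  have hcard : ∀ p, ((F p).card : ℝ) ≤ θ ^ n * (Fintype.card A : ℝ) ^ K := by
    intro p
    by_cases hinj : Function.Injective (τ p.1)
    · have h1 : F p ⊆ Fintype.piFinset (fun k : ZMod K =>
          if hk : ∃ j, τ p.1 j = k then S p.2 hk.choose else univ) := by
        intro c hc
        rw [hF, mem_filter] at hc
        rw [Fintype.mem_piFinset]
        intro k
        by_cases hk : ∃ j, τ p.1 j = k
        · rw [dif_pos hk]
          have h2 := hc.2.2 hk.choose
          rwa [hk.choose_spec] at h2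
        · rw [dif_neg hk]
          exact mem_univ _
      have h2 : ((F p).card : ℝ) ≤ ∏ k : ZMod K,
          ((if hk : ∃ j, τ p.1 j = k then S p.2 hk.choose else univ : Finset A).card : ℝ) := by
        have := card_le_card h1
        rw [Fintype.card_piFinset] at this
        exact_mod_cast this
      refine h2.trans ?_
      have h3 : ∀ k : ZMod K,
          ((if hk : ∃ j, τ p.1 j = k then S p.2 hk.choose else univ : Finset A).card : ℝ) ≤
          (if ∃ j, τ p.1 j = k then θ else 1) * (Fintype.card A : ℝ) := by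
        intro k
        by_cases hk : ∃ j, τ p.1 j = k
        · rw [dif_pos hk, if_pos hk]
          exact hS _ _
        · rw [dif_neg hk, if_neg hk, one_mul, Finset.card_univ]
      refine (Finset.prod_le_prod (fun k _ => Nat.cast_nonneg _) fun k _ => h3 k).trans ?_
      rw [Finset.prod_mul_distrib, Finset.prod_const, Finset.card_univ, ZMod.card]
      refine mul_le_mul_of_nonneg_right (le_of_eq ?_) (by positivity)
      rw [Finset.prod_ite, Finset.prod_const_one, mul_one, Finset.prod_const]
      congr 1
      have h4 : (univ.filter fun k : ZMod K => ∃ j, τ p.1 j = k) = univ.image (τ p.1) := by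
        ext k
        simp
      rw [h4, Finset.card_image_of_injective _ hinj, Finset.card_univ, Fintype.card_fin]
    · have h1 : F p = ∅ := by
        rw [hF, Finset.filter_eq_empty_iff]
        intro c _ hc
        exact hinj hc.1
      rw [h1, Finset.card_empty, Nat.cast_zero]
      positivity
  have hcov : (univ : Finset (ZMod K → A)) ⊆ univ.biUnion F := by
    intro c _
    obtain ⟨v, hv, w, hw⟩ := hcon c
    rw [mem_biUnion]
    refine ⟨(v, w), mem_univ _, ?_⟩
    rw [hF, mem_filter]
    exact ⟨mem_univ _, hv, hw⟩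
  have h1 : ((univ : Finset (ZMod K → A)).card : ℝ) ≤
      ∑ p : V × W, θ ^ n * (Fintype.card A : ℝ) ^ K := by
    have h2 := (card_le_card hcov).trans card_biUnion_le
    have h3 : ((univ : Finset (ZMod K → A)).card : ℝ) ≤ ∑ p : V × W, ((F p).card : ℝ) := by
      exact_mod_cast h2
    exact h3.trans (sum_le_sum fun p _ => hcard p)
  rw [Finset.card_univ, Fintype.card_fun, ZMod.card, Finset.sum_const, Finset.card_univ,
    Fintype.card_prod, nsmul_eq_mul] at h1
  push_cast at h1
  have h2 : (0 : ℝ) < (Fintype.card A : ℝ) ^ K := by positivity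
  have h3 : (Fintype.card V : ℝ) * Fintype.card W * (θ ^ n * (Fintype.card A : ℝ) ^ K) =
      ((Fintype.card V : ℝ) * Fintype.card W * θ ^ n) * (Fintype.card A : ℝ) ^ K := by ring
  rw [h3] at h1
  have h4 := mul_lt_mul_of_pos_right h h2
  rw [one_mul] at h4
  linarith

/-- The steps of length `b / C` go once around the circle. -/
theorem kill (φ b ℓ : ℝ) (C : ℕ) [NeZero C] (hb1 : 1 ≤ b) (hb2 : b ≤ 2) (hC2 : 2 ≤ C)
    (hC : 3 < ℓ * C) :
    ∃ c : ZMod C, ∃ z : ℤ, (z : ℝ) < φ + (c.val : ℝ) * b / C ∧
      φ + (c.val : ℝ) * b / C < z + ℓ := by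
  have hC0 : (0 : ℝ) < C := by
    have : (2 : ℝ) ≤ C := by exact_mod_cast hC2
    linarith
  have hs1 : 1 / (C : ℝ) ≤ b / C := div_le_div_of_nonneg_right hb1 hC0.le
  have hs2 : b / (C : ℝ) ≤ 2 / C := div_le_div_of_nonneg_right hb2 hC0.le
  have hℓ : 3 / (C : ℝ) < ℓ := by
    rw [div_lt_iff₀ hC0]
    linarith
  have h23 : 2 / (C : ℝ) + 1 / C = 3 / C := by ring
  have h1C : 0 < 1 / (C : ℝ) := by positivity
  obtain ⟨s, hs⟩ : ∃ s : ℝ, s = b / C := ⟨_, rfl⟩
  have hval : ∀ k : ℕ, k < C → ((k : ZMod C).val : ℝ) * b / C = k * s := by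
    intro k hk
    rw [ZMod.val_natCast, Nat.mod_eq_of_lt hk, hs]
    ring
  obtain ⟨z, hz⟩ : ∃ z : ℤ, z = ⌊φ⌋ + 1 := ⟨_, rfl⟩
  have hz1 : φ < z := by
    rw [hz]
    push_cast
    exact Int.lt_floor_add_one φ
  have hz2 : (z : ℝ) - 1 ≤ φ := by
    rw [hz]
    push_cast
    have := Int.floor_le φ
    linarith
  by_cases hlast : (z : ℝ) < φ + ((C - 1 : ℕ) : ℝ) * s
  · -- first step above `z`
    have hex : ∃ k : ℕ, (z : ℝ) < φ + k * s := ⟨C - 1, hlast⟩
    classical
    obtain ⟨k, hk⟩ : ∃ k, k = Nat.find hex := ⟨_, rfl⟩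
    have hk1 : (z : ℝ) < φ + k * s := by
      rw [hk]
      exact Nat.find_spec hex
    have hk2 : k ≤ C - 1 := by
      rw [hk]
      exact Nat.find_min' hex hlast
    have hk0 : k ≠ 0 := by
      intro h0
      rw [h0] at hk1
      simp at hk1
      linarith
    have hk3 : φ + ((k - 1 : ℕ) : ℝ) * s ≤ z := by
      by_contra h
      push Not at h
      have := Nat.find_min' hex h
      rw [← hk] at this
      omega
    have hk4 : ((k - 1 : ℕ) : ℝ) = k - 1 := by
      rw [Nat.cast_sub (Nat.one_le_iff_ne_zero.mpr hk0)]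
      simp
    refine ⟨(k : ZMod C), z, ?_, ?_⟩
    · rw [hval k (by omega)]
      exact hk1
    · rw [hval k (by omega)]
      rw [hk4] at hk3
      have : s ≤ 2 / C := by
        rw [hs]
        exact hs2
      nlinarith
  · push Not at hlast
    have hC1 : ((C - 1 : ℕ) : ℝ) = C - 1 := by
      rw [Nat.cast_sub (by omega)]
      simp
    rw [hC1] at hlast
    have hsC : (C : ℝ) * s = b := by
      rw [hs]
      field_simp
    have hsle : s ≤ 2 / C := by
      rw [hs]
      exact hs2
    have hsge : 1 / (C : ℝ) ≤ s := by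
      rw [hs]
      exact hs1
    refine ⟨((1 : ℕ) : ZMod C), z - 1, ?_, ?_⟩
    · rw [hval 1 (by omega)]
      push_cast
      linarith
    · rw [hval 1 (by omega)]
      push_cast
      have h5 : φ ≤ z - (C - 1) * s := by linarith
      have h6 : (C - 1) * s = b - s := by
        rw [sub_mul, hsC]
        ring
      rw [h6] at h5
      -- `φ + s ≤ z - b + 2 s`
      have h7 : 2 * s - b = (2 / C - 1) * b := by
        rw [hs]
        field_simp
      have h8 : (2 / (C : ℝ) - 1) * b ≤ 2 / C - 1 := by
        have h9 : 2 / (C : ℝ) - 1 ≤ 0 := by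
          rw [sub_nonpos, div_le_one hC0]
          exact_mod_cast hC2
        nlinarith
      linarith

end Pool.Agent.H55.ES
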