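import Pool.Agent.H55.ES.Normal

/-!
# Sets which contain grids of every quality are avoidable
-/

set_option autoImplicit false

open MeasureTheory Set Real

namespace Pool.Agent.H55.ES

/-- `Z` contains a grid `x_i + y_j` of quality `R`: there are `m ≥ R` points `x_i > 0` below
`δ / R`, in increasing order and with ratios at least `R`, and `n ≥ R m log m` points `y_j` whose
mutual distances are between `δ` and `δ exp (m n / R)`. -/
def HasGrid (Z : Set ℝ) (R : ℝ) : Prop :=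
  ∃ (m n : ℕ) (x : Fin m → ℝ) (y : Fin n → ℝ) (δ : ℝ), 0 < δ ∧ R ≤ m ∧ R * m * log m ≤ n ∧
    (∀ i, 0 < x i ∧ x i ≤ δ / R) ∧ (∀ i j, i < j → R * x i ≤ x j) ∧
    (∀ j k, j ≠ k → δ ≤ |y j - y k| ∧ |y j - y k| ≤ δ * exp (m * n / R)) ∧
    ∀ i j, x i + y j ∈ Z

/-- For every `ε > 0` some measurable subset of the unit interval of measure at least `1 - ε`
contains no set `a + b Z` with `b ≠ 0`. -/
def Avoidable (Z : Set ℝ) : Prop :=
  ∀ ε : ℝ, 0 < ε → ∃ E : Set ℝ, E ⊆ Icc 0 1 ∧ MeasurableSet E ∧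
    ENNReal.ofReal (1 - ε) ≤ volume E ∧ ∀ a b : ℝ, b ≠ 0 → ¬ ∀ z ∈ Z, a + b * z ∈ E

theorem avoid_of_grid {Z : Set ℝ} (hZ : ∀ R : ℝ, 1 ≤ R → HasGrid Z R) : Avoidable Z := by
  classical
  intro ε hε
  obtain ⟨ε', hpos, hsum⟩ := ENNReal.exists_pos_sum_of_countable
    (by simpa using hε : ENNReal.ofReal ε ≠ 0) ℤ
  -- the blocking sets
  have hblock : ∀ k : ℤ, ∃ (s : ℝ) (U : Set ℝ), 0 < s ∧ MeasurableSet U ∧
      (∀ u v : ℝ, u ≤ v → volume (U ∩ Icc u v) ≤
        ENNReal.ofReal (min 1 ((ε' k : ℝ) / 18) * (v - u + 2))) ∧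
      (∀ a b : ℝ, 1 ≤ b → b ≤ 2 → ∃ z ∈ Z, a + b * (z / s) ∈ U) ∧
      ∃ z ∈ Z, ∃ z' ∈ Z, s = 4 * |z - z'| := by
    intro k
    have h1 : 0 < min 1 ((ε' k : ℝ) / 18) := by
      refine lt_min one_pos ?_
      have : (0 : ℝ) < ε' k := by exact_mod_cast hpos k
      positivity
    obtain ⟨R₀, hR1, hR₀⟩ := normal h1 (min_le_left _ _)
    obtain ⟨m, n, x, y, δ, hδ, hm, hn, hx, hlac, hy, hmem⟩ := hZ R₀ hR1
    obtain ⟨s, hs, ⟨j, j', hjj⟩, hm0, U, hU, hUv, hUh⟩ :=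
      hR₀ R₀ le_rfl m n x y δ hδ hm hn hx hlac hy
    refine ⟨s, U, hs, hU, hUv, ?_, ?_⟩
    · intro a b hb1 hb2
      obtain ⟨i, j, hij⟩ := hUh a b hb1 hb2
      exact ⟨x i + y j, hmem i j, hij⟩
    · refine ⟨x ⟨0, hm0⟩ + y j, hmem _ _, x ⟨0, hm0⟩ + y j', hmem _ _, ?_⟩
      rw [hjj]
      congr 2
      ring
  choose s U hs hU hUv hUh hUd using hblock
  obtain ⟨σ, hσ⟩ : ∃ σ : ℤ → ℝ, ∀ k, σ k = (2 : ℝ) ^ k * s k := ⟨_, fun _ => rfl⟩
  have hσ0 : ∀ k, 0 < σ k := fun k => by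
    rw [hσ]
    exact mul_pos (zpow_pos (by norm_num) _) (hs k)
  obtain ⟨B, hB⟩ : ∃ B : ℤ → Set ℝ, ∀ k, B k = if σ k ≤ 4 then
      {p : ℝ | p ∈ Icc (0 : ℝ) 1 ∧ (σ k)⁻¹ * p ∈ U k} ∪
      {p : ℝ | p ∈ Icc (0 : ℝ) 1 ∧ (-σ k)⁻¹ * p ∈ U k} else ∅ := ⟨_, fun _ => rfl⟩
  have hBm : ∀ k, MeasurableSet (B k) := by
    intro k
    rw [hB]
    split_ifs
    · have h1 : ∀ t : ℝ, MeasurableSet {p : ℝ | p ∈ Icc (0 : ℝ) 1 ∧ t * p ∈ U k} := fun t =>
        measurableSet_Icc.inter ((measurable_const.mul measurable_id) (hU k))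
      exact (h1 _).union (h1 _)
    · exact MeasurableSet.empty
  have hBv : ∀ k, volume (B k) ≤ (ε' k : ENNReal) := by
    intro k
    rw [hB]
    have h0 : (0 : ℝ) < ε' k := by exact_mod_cast hpos k
    have hη0 : 0 ≤ min 1 ((ε' k : ℝ) / 18) := le_min zero_le_one (by positivity)
    split_ifs with h4
    · have h1 := scaled_meas hη0 (hUv k) (hσ0 k).ne' (by
        rw [abs_of_pos (hσ0 k)]
        exact h4)
      have h2 := scaled_meas hη0 (hUv k) (neg_ne_zero.mpr (hσ0 k).ne') (by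
        rw [abs_neg, abs_of_pos (hσ0 k)]
        exact h4)
      refine (measure_union_le _ _).trans ((add_le_add h1 h2).trans ?_)
      rw [← ENNReal.ofReal_add (by positivity) (by positivity)]
      have h3 : (ε' k : ENNReal) = ENNReal.ofReal (ε' k : ℝ) := by
        rw [ENNReal.ofReal_coe_nnreal]
      rw [h3]
      refine ENNReal.ofReal_le_ofReal ?_
      have := min_le_right 1 ((ε' k : ℝ) / 18)
      linarith
    · rw [measure_empty]
      exact zero_le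
  refine ⟨Icc 0 1 \ ⋃ k, B k, sdiff_subset, measurableSet_Icc.diff (MeasurableSet.iUnion hBm),
    ?_, ?_⟩
  · refine le_trans ?_ le_measure_sdiff
    have h1 : volume (⋃ k, B k) ≤ ENNReal.ofReal ε :=
      (measure_iUnion_le _).trans ((ENNReal.tsum_le_tsum hBv).trans hsum.le)
    rw [Real.volume_Icc, ENNReal.ofReal_sub _ hε.le, sub_zero]
    exact tsub_le_tsub_left h1 _
  · intro a b hb hcopy
    have hb0 : 0 < |b| := abs_pos.mpr hb
    obtain ⟨k, hk⟩ : ∃ k : ℤ, k = Int.log 2 |b| := ⟨_, rfl⟩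
    have hk1 : (2 : ℝ) ^ k ≤ |b| := by
      have := Int.zpow_log_le_self (b := 2) (by norm_num) hb0
      rw [hk]
      exact_mod_cast this
    have hk2 : |b| < (2 : ℝ) ^ (k + 1) := by
      have := Int.lt_zpow_succ_log_self (b := 2) (by norm_num) |b|
      rw [hk]
      exact_mod_cast this
    have h2k : (0 : ℝ) < (2 : ℝ) ^ k := zpow_pos (by norm_num) _
    have hin : ∀ z ∈ Z, a + b * z ∈ Icc (0 : ℝ) 1 := fun z hz => (hcopy z hz).1
    have hnot : ∀ z ∈ Z, a + b * z ∉ B k := fun z hz h =>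
      (hcopy z hz).2 (mem_iUnion.mpr ⟨k, h⟩)
    by_cases h4 : σ k ≤ 4
    · obtain ⟨β, hβ⟩ : ∃ β : ℝ, β = |b| / (2 : ℝ) ^ k := ⟨_, rfl⟩
      have hβ1 : 1 ≤ β := by
        rw [hβ, le_div_iff₀ h2k]
        linarith
      have hβ2 : β ≤ 2 := by
        rw [hβ, div_le_iff₀ h2k]
        rw [zpow_add₀ (by norm_num : (2 : ℝ) ≠ 0), zpow_one] at hk2
        linarith
      have hs0 := (hs k).ne'
      have hz2 := h2k.ne'
      rcases lt_or_gt_of_ne hb with hneg | hpos'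
      · obtain ⟨z, hz, hzU⟩ := hUh k (-(a / σ k)) β hβ1 hβ2
        refine hnot z hz ?_
        rw [hB, if_pos h4]
        right
        refine ⟨hin z hz, ?_⟩
        have h5 : (-σ k)⁻¹ * (a + b * z) = -(a / σ k) + β * (z / s k) := by
          rw [hβ, abs_of_neg hneg, hσ]
          field_simp
          ring
        rw [h5]
        exact hzU
      · obtain ⟨z, hz, hzU⟩ := hUh k (a / σ k) β hβ1 hβ2
        refine hnot z hz ?_
        rw [hB, if_pos h4]
        left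
        refine ⟨hin z hz, ?_⟩
        have h5 : (σ k)⁻¹ * (a + b * z) = a / σ k + β * (z / s k) := by
          rw [hβ, abs_of_pos hpos', hσ]
          field_simp
        rw [h5]
        exact hzU
    · push Not at h4
      obtain ⟨z, hz, z', hz', hzz⟩ := hUd k
      have h5 := hin z hz
      have h6 := hin z' hz'
      have h7 : |(a + b * z) - (a + b * z')| ≤ 1 := by
        rw [abs_le]
        constructor <;> linarith [h5.1, h5.2, h6.1, h6.2]
      have h8 : |(a + b * z) - (a + b * z')| = |b| * |z - z'| := by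
        rw [← abs_mul]
        congr 1
        ring
      have h9 : σ k = (2 : ℝ) ^ k * (4 * |z - z'|) := by
        rw [hσ, ← hzz]
      have h10 : (2 : ℝ) ^ k * |z - z'| ≤ |b| * |z - z'| :=
        mul_le_mul_of_nonneg_right hk1 (abs_nonneg _)
      rw [h9] at h4
      rw [h8] at h7
      linarith

end Pool.Agent.H55.ES
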