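import Pool.Agent.H55.ES.Hit

/-!
# The finite lemma: a set of small density in every cell which meets every copy of a grid
-/

set_option autoImplicit false

open MeasureTheory Set Finset

namespace Pool.Agent.H55.ES

/-- the cell in which the board `j` lies, after rounding -/
noncomputable def cellOf {n : ℕ} (K M : ℕ) (y : Fin n → ℝ) (v : Fin M × Fin (M + 1)) (j : Fin n) :
    ℤ :=
  ⌊(K : ℝ) * ((v.1 : ℝ) / M + (1 + (v.2 : ℝ) / M) * y j)⌋

theorem cellOf_inj {n K M : ℕ} (hK : 3 ≤ K) (hM : 0 < M) (y : Fin n → ℝ)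
    (hy0 : ∀ j, 0 ≤ y j) (hy1 : ∀ j, y j ≤ 1 / 4)
    (hyK : ∀ j k, j ≠ k → 2 ≤ K * |y j - y k|) (v : Fin M × Fin (M + 1)) :
    Function.Injective (fun j => (cellOf K M y v j : ZMod K)) := by
  intro j k hjk
  by_contra hne
  simp only at hjk
  rw [ZMod.intCast_eq_intCast_iff_dvd_sub] at hjk
  have hK0 : (0 : ℝ) < K := by
    have : 0 < K := by omega
    exact_mod_cast this
  have hK3 : (3 : ℝ) ≤ K := by exact_mod_cast hK
  have hM0 : (0 : ℝ) < M := by exact_mod_cast hM
  obtain ⟨s, hs⟩ : ∃ s : ℝ, s = 1 + (v.2 : ℝ) / M := ⟨_, rfl⟩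
  have hs1 : 1 ≤ s := by
    rw [hs]
    have : 0 ≤ (v.2 : ℝ) / M := by positivity
    linarith
  have hs2 : s ≤ 2 := by
    rw [hs]
    have h1 : ((v.2 : ℕ) : ℝ) ≤ M := by
      have := v.2.2
      exact_mod_cast Nat.lt_succ_iff.mp this
    have : (v.2 : ℝ) / M ≤ 1 := by
      rw [div_le_one hM0]
      exact h1
    linarith
  obtain ⟨A, hA⟩ : ∃ A : ℝ, A = (K : ℝ) * ((v.1 : ℝ) / M + s * y j) := ⟨_, rfl⟩
  obtain ⟨B, hB⟩ : ∃ B : ℝ, B = (K : ℝ) * ((v.1 : ℝ) / M + s * y k) := ⟨_, rfl⟩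
  have hcj : cellOf K M y v j = ⌊A⌋ := by
    rw [hA, hs]
    rfl
  have hck : cellOf K M y v k = ⌊B⌋ := by
    rw [hB, hs]
    rfl
  rw [hcj, hck] at hjk
  have hAB : |A - B| = K * (s * |y j - y k|) := by
    have h1 : A - B = K * (s * (y j - y k)) := by
      rw [hA, hB]
      ring
    rw [h1, abs_mul, abs_mul, abs_of_pos hK0, abs_of_nonneg (by linarith : 0 ≤ s)]
  have hlow : 2 ≤ |A - B| := by
    rw [hAB]
    have h1 := hyK j k hne
    have h2 : (0 : ℝ) ≤ K * |y j - y k| := by positivity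
    nlinarith
  have hyy : |y j - y k| ≤ 1 / 4 := by
    rw [abs_le]
    constructor <;> linarith [hy0 j, hy0 k, hy1 j, hy1 k]
  have hupp : |A - B| ≤ K / 2 := by
    rw [hAB]
    have h3 : s * |y j - y k| ≤ 2 * (1 / 4) :=
      mul_le_mul hs2 hyy (abs_nonneg _) (by norm_num)
    nlinarith
  have hfA := Int.floor_le A
  have hfA' := Int.lt_floor_add_one A
  have hfB := Int.floor_le B
  have hfB' := Int.lt_floor_add_one B
  -- the difference of the floors is a nonzero multiple of `K` of absolute value `< K`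
  have hd1 : ⌊B⌋ - ⌊A⌋ ≠ 0 := by
    intro h0
    have h1 : (⌊B⌋ : ℝ) - ⌊A⌋ = 0 := by exact_mod_cast h0
    have h2 : |A - B| < 1 := by
      rw [abs_lt]
      constructor <;> linarith
    linarith
  have hd2 : |⌊B⌋ - ⌊A⌋| < (K : ℤ) := by
    have h1 : |((⌊B⌋ - ⌊A⌋ : ℤ) : ℝ)| < K := by
      push_cast
      rw [abs_le] at hupp
      rw [abs_lt]
      constructor <;> linarith [hupp.1, hupp.2]
    exact_mod_cast h1
  have h3 := Int.eq_zero_of_abs_lt_dvd hjk hd2
  exact hd1 h3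

theorem finite_lemma {m n K C D M : ℕ} [NeZero C] {ε : ℝ} (hε : 0 < ε) (hε1 : ε ≤ 1)
    (hm : 0 < m) (hK : 3 ≤ K) (hC : 24 < ε * C)
    (x : Fin m → ℝ) (y : Fin n → ℝ) (hx : ∀ i, 0 < x i)
    (hxK : ∀ i, C * K * x i ≤ ε / 64)
    (hlac : ∀ i, ∑ l ∈ Finset.univ.filter (fun l => i < l), x i / x l ≤ ε / 32)
    (hy0 : ∀ j, 0 ≤ y j) (hy1 : ∀ j, y j ≤ 1 / 4)
    (hyK : ∀ j k, j ≠ k → 2 ≤ K * |y j - y k|)
    (hD : 16 * (2 + m * C) / ε ≤ D) (hM : 32 * K / ε < M)
    (hU : ((M : ℝ) * (M + 1)) * (((D : ℝ) + 1) * ((D : ℝ) ^ (m * m) * (D : ℝ) ^ n)) *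
      ((1 - 1 / (C : ℝ)) ^ m) ^ n < 1) :
    ∃ U : Set ℝ, MeasurableSet U ∧
      (∀ κ : ℤ, volume (U ∩ Ico ((κ : ℝ) / K) ((κ + 1) / K)) ≤ ENNReal.ofReal (ε / K)) ∧
      ∀ a b : ℝ, 1 ≤ b → b ≤ 2 → ∃ i j, a + b * (x i + y j) ∈ U := by
  classical
  have hK0' : 0 < K := by omega
  have : NeZero K := ⟨by omega⟩
  have hK0 : (0 : ℝ) < K := by exact_mod_cast hK0'
  have hC0 : (0 : ℝ) < C := by exact_mod_cast NeZero.pos C
  have hC24 : (24 : ℝ) < C := by
    nlinarith
  have hC2 : 2 ≤ C := by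
    have : (2 : ℝ) ≤ C := by linarith
    exact_mod_cast this
  have hM0r : (0 : ℝ) < M := lt_of_le_of_lt (by positivity) hM
  have hM0 : 0 < M := by exact_mod_cast hM0r
  have hD0r : (0 : ℝ) < D := lt_of_lt_of_le (by positivity) hD
  have hD0 : 0 < D := by exact_mod_cast hD0r
  -- the bad letters
  have hkill : ∀ (b' : Fin (D + 1)) (φ : ℝ), ∃ c : ZMod C, ∃ z : ℤ,
      (z : ℝ) < φ + (c.val : ℝ) * (1 + (b' : ℝ) / D) / C ∧
      φ + (c.val : ℝ) * (1 + (b' : ℝ) / D) / C < z + ε / 8 := by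
    intro b' φ
    refine kill φ (1 + (b' : ℝ) / D) (ε / 8) C ?_ ?_ hC2 ?_
    · have : 0 ≤ (b' : ℝ) / D := by positivity
      linarith
    · have h1 : ((b' : ℕ) : ℝ) ≤ D := by
        have := b'.2
        exact_mod_cast Nat.lt_succ_iff.mp this
      have : (b' : ℝ) / D ≤ 1 := by
        rw [div_le_one hD0r]
        exact h1
      linarith
    · linarith
  choose kl hkl using hkill
  obtain ⟨bad, hbad⟩ : ∃ bad : Fin (D + 1) × ((Fin m → Fin m → Fin D) × (Fin n → Fin D)) →
      Fin n → Fin m → (Fin m → ZMod C) → ZMod C, ∀ w j i c, bad w j i c =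
        kl w.1 ((w.2.2 j : ℝ) / D + ∑ l ∈ Finset.univ.filter (fun l => l < i),
          ((c l).val : ℝ) * ((w.2.1 l i : ℝ) / D)) := ⟨_, fun _ _ _ _ => rfl⟩
  obtain ⟨S, hS⟩ : ∃ S : Fin (D + 1) × ((Fin m → Fin m → Fin D) × (Fin n → Fin D)) →
      Fin n → Finset (Fin m → ZMod C), ∀ w j, S w j =
        Finset.univ.filter (fun c => ∀ i, c i ≠ bad w j i c) := ⟨_, fun _ _ => rfl⟩
  have hScard : ∀ w j, ((S w j).card : ℝ) ≤
      (1 - 1 / (C : ℝ)) ^ m * Fintype.card (Fin m → ZMod C) := by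
    intro w j
    rw [hS]
    have h1 := surv_card C m (bad w j) (by
      intro i c c' hcc
      rw [hbad, hbad]
      congr 2
      refine Finset.sum_congr rfl fun l hl => ?_
      rw [hcc l (Finset.mem_filter.mp hl).2])
    have h2 : (((C - 1) ^ m : ℕ) : ℝ) =
        (1 - 1 / (C : ℝ)) ^ m * Fintype.card (Fin m → ZMod C) := by
      rw [Fintype.card_fun, ZMod.card, Fintype.card_fin]
      push_cast
      rw [← mul_pow, Nat.cast_sub (by omega), Nat.cast_one]
      congr 1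
      field_simp
    rw [← h2]
    exact_mod_cast h1
  have hθ0 : (0 : ℝ) ≤ (1 - 1 / (C : ℝ)) ^ m := by
    refine pow_nonneg ?_ _
    rw [sub_nonneg, div_le_one hC0]
    linarith
  obtain ⟨c, hc⟩ := design (K := K) (n := n) (A := Fin m → ZMod C) (V := Fin M × Fin (M + 1))
    (fun v j => (cellOf K M y v j : ZMod K)) S ((1 - 1 / (C : ℝ)) ^ m) hθ0 hScard (by
      refine lt_of_le_of_lt (le_of_eq ?_) hU
      simp only [Fintype.card_prod, Fintype.card_fin, Fintype.card_fun]
      push_cast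
      rw [← pow_mul]
      )
  -- the blocking set
  refine ⟨Uset K (ε / 8) (ε / 4) (fun k => freq x (c k)), Uset_meas _ _ _ _, ?_, ?_⟩
  · intro κ
    refine (Uset_cell hK0' (by positivity) (by positivity) (fun k => freq x (c k)) ?_ κ).trans ?_
    · intro k
      refine freq_dich x hx (fun i => ?_) (c k)
      have := hxK i
      linarith
    · refine ENNReal.ofReal_le_ofReal ?_
      refine div_le_div_of_nonneg_right ?_ hK0.le
      linarith
  intro a b hb1 hb2
  by_contra hcon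
  push Not at hcon
  -- the rounded data
  obtain ⟨u, hu1, hu2⟩ := round_fract hM0 a
  obtain ⟨v, hv1, hv2⟩ := round_b hM0 hb1 hb2
  obtain ⟨b', hb1', hb2'⟩ := round_b hD0 hb1 hb2
  have hinj := cellOf_inj hK hM0 y hy0 hy1 hyK (u, v)
  have hth : ∀ l i : Fin m, ∃ k : Fin D, (k : ℝ) / D ≤ Int.fract (b * x i / (C * x l)) ∧
      Int.fract (b * x i / (C * x l)) < (k : ℝ) / D + 1 / D := fun l i => round_fract hD0 _
  choose th hth1 hth2 using hth
  have hph : ∀ j : Fin n, ∃ k : Fin D,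
      (k : ℝ) / D ≤ Int.fract ((a + b * y j) * freq x (c (cellOf K M y (u, v) j : ZMod K))) ∧
      Int.fract ((a + b * y j) * freq x (c (cellOf K M y (u, v) j : ZMod K))) <
        (k : ℝ) / D + 1 / D := fun j => round_fract hD0 _
  choose ph hph1 hph2 using hph
  obtain ⟨j, hj⟩ := hc (u, v) hinj (b', th, ph)
  rw [hS, Finset.mem_filter] at hj
  push Not at hj
  obtain ⟨i, hi⟩ := hj (Finset.mem_univ _)
  rw [hbad] at hi
  have hkl' := hkl b' ((ph j : ℝ) / D + ∑ l ∈ Finset.univ.filter (fun l => l < i),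
          ((c (cellOf K M y (u, v) j : ZMod K) l).val : ℝ) * ((th l i : ℝ) / D))
  simp only at hi
  rw [← hi] at hkl'
  obtain ⟨z, hz1, hz2⟩ := hkl'
  have hhit := hit hε hε1 hD0 hD x hx i (hlac i) hb1 hb2 hb1' hb2'
    (c (cellOf K M y (u, v) j : ZMod K)) (hph1 j) (hph2 j) (fun l => (th l i : ℝ) / D)
    (fun l => hth1 l i) (fun l => hth2 l i) z hz1 hz2
  -- the cell of the point
  refine hcon i j ?_
  by_cases hbd : Int.fract ((K : ℝ) * (a + b * (x i + y j))) < ε / 8 ∨
      1 - ε / 8 < Int.fract ((K : ℝ) * (a + b * (x i + y j)))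
  · left
    exact hbd
  right
  push Not at hbd
  have hcell : (⌊(K : ℝ) * (a + b * (x i + y j))⌋ : ZMod K) = (cellOf K M y (u, v) j : ZMod K) := by
    have h1 : ⌊(K : ℝ) * (a + b * (x i + y j))⌋ = K * ⌊a⌋ + cellOf K M y (u, v) j := by
      obtain ⟨A, hA⟩ : ∃ A : ℝ, A = (K : ℝ) * ((u : ℝ) / M + (1 + (v : ℝ) / M) * y j) :=
        ⟨_, rfl⟩
      have hA' : cellOf K M y (u, v) j = ⌊A⌋ := by
        rw [hA]
        rfl
      rw [hA']
      obtain ⟨B, hB⟩ : ∃ B : ℝ, B = (K : ℝ) * (a + b * (x i + y j)) := ⟨_, rfl⟩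
      rw [← hB] at hbd ⊢
      have hdiff : B - (K * ⌊a⌋ + A) = K * ((Int.fract a - (u : ℝ) / M) +
          (b - (1 + (v : ℝ) / M)) * y j) + K * (b * x i) := by
        rw [hA, hB]
        have := Int.floor_add_fract a
        have h2 : (⌊a⌋ : ℝ) = a - Int.fract a := by linarith
        rw [h2]
        ring
      have hy0j := hy0 j
      have hy1j := hy1 j
      have hd0 : 0 ≤ B - (K * ⌊a⌋ + A) := by
        rw [hdiff]
        have h2 : 0 ≤ Int.fract a - (u : ℝ) / M := by linarith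
        have h3 : 0 ≤ (b - (1 + (v : ℝ) / M)) * y j := mul_nonneg (by linarith) hy0j
        have h4 : 0 ≤ b * x i := mul_nonneg (by linarith) (hx i).le
        positivity
      have hd1 : B - (K * ⌊a⌋ + A) < ε / 8 := by
        rw [hdiff]
        have h2 : Int.fract a - (u : ℝ) / M < 1 / M := by linarith
        have h3 : (b - (1 + (v : ℝ) / M)) * y j ≤ (1 / M) * (1 / 4) :=
          mul_le_mul (by linarith) hy1j hy0j (by positivity)
        have h5 : (K : ℝ) * ((Int.fract a - (u : ℝ) / M) +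
            (b - (1 + (v : ℝ) / M)) * y j) ≤ K * (5 / 4 * (1 / M)) :=
          mul_le_mul_of_nonneg_left (by linarith) hK0.le
        have h6 : (K : ℝ) * (5 / 4 * (1 / M)) < ε / 16 := by
          rw [div_lt_iff₀ hε] at hM
          have h7 : (K : ℝ) * (5 / 4 * (1 / M)) = (5 / 4 * K) / M := by ring
          rw [h7, div_lt_iff₀ hM0r]
          nlinarith
        have h8 : (K : ℝ) * (b * x i) ≤ ε / 16 := by
          have h9 := hxK i
          have h10 : (0 : ℝ) ≤ K * x i := mul_nonneg hK0.le (hx i).le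
          have h11 : (K : ℝ) * (b * x i) ≤ 2 * (K * x i) := by nlinarith
          have h12 : (K : ℝ) * x i ≤ C * K * x i := by nlinarith
          linarith
        linarith
      have hfB := Int.floor_add_fract B
      -- `B - (K ⌊a⌋ + A) ≤ fract B`
      rw [Int.floor_eq_iff]
      have hfA := Int.floor_le A
      have hfA' := Int.lt_floor_add_one A
      constructor
      · push_cast
        linarith
      · push_cast
        -- otherwise the floor of `B` would be above and its fractional part small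
        by_contra hlt
        push Not at hlt
        have h5 : ⌊B⌋ = K * ⌊a⌋ + ⌊A⌋ + 1 := by
          rw [Int.floor_eq_iff]
          push_cast
          constructor
          · linarith
          · linarith
        have h6 : Int.fract B = B - (K * ⌊a⌋ + ⌊A⌋ + 1) := by
          have h7 : (⌊B⌋ : ℝ) = K * ⌊a⌋ + ⌊A⌋ + 1 := by
            rw [h5]
            push_cast
            ring
          linarith
        have h8 := hbd.1
        rw [h6] at h8
        linarith
    rw [h1]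
    push_cast
    rw [ZMod.natCast_self, zero_mul, zero_add]
  rw [show a + b * (x i + y j) = (a + b * y j) + b * x i by ring] at hcell ⊢
  show 0 < Int.fract (freq x (c (⌊(K : ℝ) * ((a + b * y j) + b * x i)⌋ : ZMod K)) *
    ((a + b * y j) + b * x i)) ∧ _
  rw [hcell]
  exact hhit

end Pool.Agent.H55.ES
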