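import Mathlib

/-!
# The set `Uset` and its measure
-/

set_option autoImplicit false

open MeasureTheory Set

namespace Pool.Agent.H55.ES

/-- measure of the set where the fractional part of `ξ p` is in `(0, e)` -/
theorem fract_meas {ξ e α β : ℝ} (hξ : 0 < ξ) (he : 0 ≤ e) (hαβ : α ≤ β) :
    volume {p : ℝ | p ∈ Ico α β ∧ 0 < Int.fract (ξ * p) ∧ Int.fract (ξ * p) < e} ≤
      ENNReal.ofReal (e * (β - α) + 2 * e / ξ) := by
  have hsub : {p : ℝ | p ∈ Ico α β ∧ 0 < Int.fract (ξ * p) ∧ Int.fract (ξ * p) < e} ⊆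
      ⋃ z ∈ Finset.Icc ⌊ξ * α⌋ ⌊ξ * β⌋, Ioo ((z : ℝ) / ξ) ((z + e) / ξ) := by
    rintro p ⟨⟨h1, h2⟩, h3, h4⟩
    rw [mem_iUnion₂]
    refine ⟨⌊ξ * p⌋, ?_, ?_⟩
    · rw [Finset.mem_Icc]
      exact ⟨Int.floor_le_floor (mul_le_mul_of_nonneg_left h1 hξ.le),
        Int.floor_le_floor (mul_le_mul_of_nonneg_left h2.le hξ.le)⟩
    · have h5 := Int.floor_add_fract (ξ * p)
      constructor
      · rw [div_lt_iff₀ hξ]
        linarith
      · rw [lt_div_iff₀ hξ]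
        linarith
  refine (measure_mono hsub).trans ((measure_biUnion_finset_le _ _).trans ?_)
  have h1 : ∀ z : ℤ, volume (Ioo ((z : ℝ) / ξ) ((z + e) / ξ)) = ENNReal.ofReal (e / ξ) := by
    intro z
    rw [Real.volume_Ioo]
    congr 1
    ring
  simp only [h1, Finset.sum_const, nsmul_eq_mul]
  rw [← ENNReal.ofReal_natCast, ← ENNReal.ofReal_mul (Nat.cast_nonneg _)]
  refine ENNReal.ofReal_le_ofReal ?_
  have h2 : ((Finset.Icc ⌊ξ * α⌋ ⌊ξ * β⌋).card : ℝ) ≤ ξ * (β - α) + 2 := by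
    rw [Int.card_Icc]
    have h3 : ⌊ξ * α⌋ ≤ ⌊ξ * β⌋ := Int.floor_le_floor (mul_le_mul_of_nonneg_left hαβ hξ.le)
    have h4 : (((⌊ξ * β⌋ + 1 - ⌊ξ * α⌋).toNat : ℤ) : ℝ) = ⌊ξ * β⌋ + 1 - ⌊ξ * α⌋ := by
      rw [Int.toNat_of_nonneg (by omega)]
      push_cast
      ring
    rw [Int.cast_natCast] at h4
    rw [h4]
    have h5 := Int.floor_le (ξ * β)
    have h6 := Int.lt_floor_add_one (ξ * α)
    linarith
  calc ((Finset.Icc ⌊ξ * α⌋ ⌊ξ * β⌋).card : ℝ) * (e / ξ) ≤ (ξ * (β - α) + 2) * (e / ξ) :=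
        mul_le_mul_of_nonneg_right h2 (by positivity)
    _ = e * (β - α) + 2 * e / ξ := by
        field_simp

theorem floor_cell {K : ℕ} (hK : 0 < K) {κ : ℤ} {p : ℝ}
    (hp : p ∈ Ico ((κ : ℝ) / K) ((κ + 1) / K)) : ⌊(K : ℝ) * p⌋ = κ := by
  have hK0 : (0 : ℝ) < K := by exact_mod_cast hK
  rw [Int.floor_eq_iff]
  obtain ⟨h1, h2⟩ := hp
  rw [div_le_iff₀ hK0] at h1
  rw [lt_div_iff₀ hK0] at h2
  constructor <;> linarith

/-- measure of the set near the boundaries of a cell -/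
theorem bdry_meas {K : ℕ} (hK : 0 < K) {ρ : ℝ} (hρ : 0 ≤ ρ) (κ : ℤ) :
    volume {p : ℝ | p ∈ Ico ((κ : ℝ) / K) ((κ + 1) / K) ∧
      (Int.fract ((K : ℝ) * p) < ρ ∨ 1 - ρ < Int.fract ((K : ℝ) * p))} ≤
      ENNReal.ofReal (2 * ρ / K) := by
  have hK0 : (0 : ℝ) < K := by exact_mod_cast hK
  have hsub : {p : ℝ | p ∈ Ico ((κ : ℝ) / K) ((κ + 1) / K) ∧
      (Int.fract ((K : ℝ) * p) < ρ ∨ 1 - ρ < Int.fract ((K : ℝ) * p))} ⊆
      Ico ((κ : ℝ) / K) ((κ + ρ) / K) ∪ Ioo ((κ + 1 - ρ) / K) (((κ : ℝ) + 1) / K) := by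
    rintro p ⟨hp, h⟩
    have h1 := floor_cell hK hp
    have h2 := Int.floor_add_fract ((K : ℝ) * p)
    rw [h1] at h2
    rcases h with h | h
    · left
      refine ⟨hp.1, ?_⟩
      rw [lt_div_iff₀ hK0]
      linarith
    · right
      refine ⟨?_, hp.2⟩
      rw [div_lt_iff₀ hK0]
      linarith
  refine (measure_mono hsub).trans ((measure_union_le _ _).trans ?_)
  rw [Real.volume_Ico, Real.volume_Ioo, ← ENNReal.ofReal_add]
  · refine ENNReal.ofReal_le_ofReal (le_of_eq ?_)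
    ring
  · have : ((κ : ℝ) + ρ) / K - κ / K = ρ / K := by ring
    rw [this]
    positivity
  · have : ((κ : ℝ) + 1) / K - (κ + 1 - ρ) / K = ρ / K := by ring
    rw [this]
    positivity

/-- the blocking set: the points near the boundaries of the cells of length `1 / K`, and the
points where the fractional part of `ξ_k p` is in `(0, e)`, `k` the index of the cell -/
def Uset (K : ℕ) (ρ e : ℝ) (ξ : ZMod K → ℝ) : Set ℝ :=
  {p | (Int.fract ((K : ℝ) * p) < ρ ∨ 1 - ρ < Int.fract ((K : ℝ) * p)) ∨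
    (0 < Int.fract (ξ (⌊(K : ℝ) * p⌋ : ℤ) * p) ∧ Int.fract (ξ (⌊(K : ℝ) * p⌋ : ℤ) * p) < e)}

theorem Uset_meas (K : ℕ) (ρ e : ℝ) (ξ : ZMod K → ℝ) : MeasurableSet (Uset K ρ e ξ) := by
  have h1 : Measurable fun p : ℝ => Int.fract ((K : ℝ) * p) :=
    measurable_fract.comp (measurable_const.mul measurable_id)
  have h2 : Measurable fun p : ℝ => ξ (⌊(K : ℝ) * p⌋ : ℤ) := by
    have h3 : Measurable fun z : ℤ => ξ (z : ZMod K) := measurable_from_top
    exact h3.comp (Int.measurable_floor.comp (measurable_const.mul measurable_id))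
  have h3 : Measurable fun p : ℝ => Int.fract (ξ (⌊(K : ℝ) * p⌋ : ℤ) * p) :=
    measurable_fract.comp (h2.mul measurable_id)
  exact ((measurableSet_lt h1 measurable_const).union (measurableSet_lt measurable_const h1)).union
    ((measurableSet_lt measurable_const h3).inter (measurableSet_lt h3 measurable_const))

theorem Uset_cell {K : ℕ} (hK : 0 < K) {ρ e : ℝ} (hρ : 0 ≤ ρ) (he : 0 ≤ e) (ξ : ZMod K → ℝ)
    (hξ : ∀ k, ξ k = 0 ∨ 2 * (K : ℝ) ≤ ξ k) (κ : ℤ) :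
    volume (Uset K ρ e ξ ∩ Ico ((κ : ℝ) / K) ((κ + 1) / K)) ≤
      ENNReal.ofReal ((2 * ρ + 2 * e) / K) := by
  have hK0 : (0 : ℝ) < K := by exact_mod_cast hK
  have hle : (κ : ℝ) / K ≤ (κ + 1) / K := div_le_div_of_nonneg_right (by linarith) hK0.le
  have hsub : Uset K ρ e ξ ∩ Ico ((κ : ℝ) / K) ((κ + 1) / K) ⊆
      {p : ℝ | p ∈ Ico ((κ : ℝ) / K) ((κ + 1) / K) ∧
        (Int.fract ((K : ℝ) * p) < ρ ∨ 1 - ρ < Int.fract ((K : ℝ) * p))} ∪
      {p : ℝ | p ∈ Ico ((κ : ℝ) / K) ((κ + 1) / K) ∧ 0 < Int.fract (ξ (κ : ZMod K) * p) ∧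
        Int.fract (ξ (κ : ZMod K) * p) < e} := by
    rintro p ⟨h1, hp⟩
    rcases h1 with h1 | h1
    · left
      exact ⟨hp, h1⟩
    · right
      rw [floor_cell hK hp] at h1
      exact ⟨hp, h1⟩
  refine (measure_mono hsub).trans ((measure_union_le _ _).trans ?_)
  have h2 : volume {p : ℝ | p ∈ Ico ((κ : ℝ) / K) ((κ + 1) / K) ∧
      0 < Int.fract (ξ (κ : ZMod K) * p) ∧ Int.fract (ξ (κ : ZMod K) * p) < e} ≤
      ENNReal.ofReal (2 * e / K) := by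
    rcases hξ κ with h | h
    · have h3 : {p : ℝ | p ∈ Ico ((κ : ℝ) / K) ((κ + 1) / K) ∧
          0 < Int.fract (ξ (κ : ZMod K) * p) ∧ Int.fract (ξ (κ : ZMod K) * p) < e} = ∅ := by
        ext p
        rw [h]
        simp
      rw [h3, measure_empty]
      exact zero_le
    · refine (fract_meas (by linarith) he hle).trans (ENNReal.ofReal_le_ofReal ?_)
      have h4 : 2 * e / ξ (κ : ZMod K) ≤ 2 * e / (2 * K) :=
        div_le_div_of_nonneg_left (by linarith) (by positivity) h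
      have h5 : 2 * e / (2 * (K : ℝ)) = e / K := by
        field_simp
      have h6 : e * (((κ : ℝ) + 1) / K - κ / K) = e / K := by ring
      rw [h6]
      rw [h5] at h4
      calc e / (K : ℝ) + 2 * e / ξ (κ : ZMod K) ≤ e / K + e / K := by linarith
        _ = 2 * e / K := by ring
  refine (add_le_add (bdry_meas hK hρ κ) h2).trans ?_
  rw [← ENNReal.ofReal_add (by positivity) (by positivity)]
  refine ENNReal.ofReal_le_ofReal (le_of_eq ?_)
  ring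

/-- from cells to intervals -/
theorem cell_interval {K : ℕ} (hK : 0 < K) {η : ℝ} (hη : 0 ≤ η) {U : Set ℝ}
    (hU : ∀ κ : ℤ, volume (U ∩ Ico ((κ : ℝ) / K) ((κ + 1) / K)) ≤ ENNReal.ofReal (η / K))
    {s t : ℝ} (hst : s ≤ t) : volume (U ∩ Icc s t) ≤ ENNReal.ofReal (η * (t - s + 2)) := by
  have hK0 : (0 : ℝ) < K := by exact_mod_cast hK
  have hK1 : (1 : ℝ) ≤ K := by exact_mod_cast hK
  have hsub : U ∩ Icc s t ⊆ ⋃ κ ∈ Finset.Icc ⌊(K : ℝ) * s⌋ ⌊(K : ℝ) * t⌋,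
      U ∩ Ico ((κ : ℝ) / K) ((κ + 1) / K) := by
    rintro p ⟨h0, h1, h2⟩
    rw [mem_iUnion₂]
    refine ⟨⌊(K : ℝ) * p⌋, ?_, h0, ?_⟩
    · rw [Finset.mem_Icc]
      exact ⟨Int.floor_le_floor (mul_le_mul_of_nonneg_left h1 hK0.le),
        Int.floor_le_floor (mul_le_mul_of_nonneg_left h2 hK0.le)⟩
    · constructor
      · rw [div_le_iff₀ hK0]
        have := Int.floor_le ((K : ℝ) * p)
        linarith
      · rw [lt_div_iff₀ hK0]
        have := Int.lt_floor_add_one ((K : ℝ) * p)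
        linarith
  refine (measure_mono hsub).trans ((measure_biUnion_finset_le _ _).trans ?_)
  refine (Finset.sum_le_sum fun κ _ => hU κ).trans ?_
  rw [Finset.sum_const, nsmul_eq_mul, ← ENNReal.ofReal_natCast,
    ← ENNReal.ofReal_mul (Nat.cast_nonneg _)]
  refine ENNReal.ofReal_le_ofReal ?_
  have h2 : ((Finset.Icc ⌊(K : ℝ) * s⌋ ⌊(K : ℝ) * t⌋).card : ℝ) ≤ K * (t - s) + 2 := by
    rw [Int.card_Icc]
    have h3 : ⌊(K : ℝ) * s⌋ ≤ ⌊(K : ℝ) * t⌋ :=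
      Int.floor_le_floor (mul_le_mul_of_nonneg_left hst hK0.le)
    have h4 : (((⌊(K : ℝ) * t⌋ + 1 - ⌊(K : ℝ) * s⌋).toNat : ℤ) : ℝ) =
        ⌊(K : ℝ) * t⌋ + 1 - ⌊(K : ℝ) * s⌋ := by
      rw [Int.toNat_of_nonneg (by omega)]
      push_cast
      ring
    rw [Int.cast_natCast] at h4
    rw [h4]
    have h5 := Int.floor_le ((K : ℝ) * t)
    have h6 := Int.lt_floor_add_one ((K : ℝ) * s)
    linarith
  calc ((Finset.Icc ⌊(K : ℝ) * s⌋ ⌊(K : ℝ) * t⌋).card : ℝ) * (η / K)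
      ≤ (K * (t - s) + 2) * (η / K) := mul_le_mul_of_nonneg_right h2 (by positivity)
    _ = η * (t - s + 2 / K) := by
        field_simp
    _ ≤ η * (t - s + 2) := by
        refine mul_le_mul_of_nonneg_left ?_ hη
        have : 2 / (K : ℝ) ≤ 2 := by
          rw [div_le_iff₀ hK0]
          linarith
        linarith

/-- the same after scaling, in the unit interval -/
theorem scaled_meas {U : Set ℝ} {η : ℝ} (hη : 0 ≤ η)
    (hU : ∀ s t : ℝ, s ≤ t → volume (U ∩ Icc s t) ≤ ENNReal.ofReal (η * (t - s + 2)))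
    {σ : ℝ} (hσ : σ ≠ 0) (hσ4 : |σ| ≤ 4) :
    volume {p : ℝ | p ∈ Icc (0 : ℝ) 1 ∧ σ⁻¹ * p ∈ U} ≤ ENNReal.ofReal (9 * η) := by
  have habs : 0 < |σ| := abs_pos.mpr hσ
  obtain ⟨s, hs⟩ : ∃ s : ℝ, s = min 0 σ⁻¹ := ⟨_, rfl⟩
  obtain ⟨t, ht⟩ : ∃ t : ℝ, t = max 0 σ⁻¹ := ⟨_, rfl⟩
  have hst : s ≤ t := by
    rw [hs, ht]
    exact (min_le_left _ _).trans (le_max_left _ _)
  have hts : t - s = |σ|⁻¹ := by
    rw [hs, ht, max_sub_min_eq_abs', zero_sub, abs_neg, abs_inv]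
  have hsub : {p : ℝ | p ∈ Icc (0 : ℝ) 1 ∧ σ⁻¹ * p ∈ U} ⊆
      (fun p => σ⁻¹ * p) ⁻¹' (U ∩ Icc s t) := by
    rintro p ⟨⟨h1, h2⟩, h3⟩
    refine ⟨h3, ?_, ?_⟩
    · rw [hs]
      rcases le_total 0 σ⁻¹ with h | h
      · exact (min_le_left _ _).trans (mul_nonneg h h1)
      · refine (min_le_right _ _).trans ?_
        simp only
        nlinarith
    · rw [ht]
      rcases le_total 0 σ⁻¹ with h | h
      · refine le_trans ?_ (le_max_right _ _)
        simp only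
        nlinarith
      · refine le_trans ?_ (le_max_left _ _)
        exact mul_nonpos_of_nonpos_of_nonneg h h1
  refine (measure_mono hsub).trans ?_
  rw [Real.volume_preimage_mul_left (inv_ne_zero hσ), inv_inv]
  refine (mul_le_mul_right (hU s t hst) _).trans ?_
  rw [← ENNReal.ofReal_mul (abs_nonneg _), hts]
  refine ENNReal.ofReal_le_ofReal ?_
  have h1 : |σ| * (η * (|σ|⁻¹ + 2)) = η * (1 + 2 * |σ|) := by
    field_simp
  rw [h1]
  nlinarith

end Pool.Agent.H55.ES
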