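import Pool.Agent.H55.ES.Count
import Pool.Agent.H55.ES.Meas

/-!
# The kill step: a correct choice of one letter puts the point in the blocking set
-/

set_option autoImplicit false

open MeasureTheory Set Finset

namespace Pool.Agent.H55.ES

/-- the frequency of a cell whose word is `c` -/
noncomputable def freq {m C : ℕ} (x : Fin m → ℝ) (c : Fin m → ZMod C) : ℝ :=
  ∑ l, ((c l).val : ℝ) / (C * x l)

theorem freq_dich {m K C : ℕ} [NeZero C] (x : Fin m → ℝ) (hx : ∀ i, 0 < x i)
    (hxK : ∀ i, 2 * C * K * x i ≤ 1) (c : Fin m → ZMod C) :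
    freq x c = 0 ∨ 2 * (K : ℝ) ≤ freq x c := by
  have hC : (0 : ℝ) < C := by exact_mod_cast NeZero.pos C
  have hnn : ∀ l ∈ (Finset.univ : Finset (Fin m)), 0 ≤ ((c l).val : ℝ) / (C * x l) := fun l _ =>
    div_nonneg (Nat.cast_nonneg _) (mul_nonneg hC.le (hx l).le)
  by_cases h : ∃ l, (c l).val ≠ 0
  · right
    obtain ⟨l, hl⟩ := h
    have h1 : ((c l).val : ℝ) / (C * x l) ≤ freq x c :=
      Finset.single_le_sum hnn (Finset.mem_univ l)
    refine le_trans ?_ h1
    rw [le_div_iff₀ (mul_pos hC (hx l))]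
    have h2 : (1 : ℝ) ≤ ((c l).val : ℝ) := by
      exact_mod_cast Nat.one_le_iff_ne_zero.mpr hl
    have h3 := hxK l
    linarith
  · left
    push Not at h
    unfold freq
    refine Finset.sum_eq_zero fun l _ => ?_
    rw [h l]
    simp

theorem round_fract {D : ℕ} (hD : 0 < D) (t : ℝ) :
    ∃ k : Fin D, (k : ℝ) / D ≤ Int.fract t ∧ Int.fract t < (k : ℝ) / D + 1 / D := by
  have hD0 : (0 : ℝ) < D := by exact_mod_cast hD
  have h0 := Int.fract_nonneg t
  have h1 := Int.fract_lt_one t
  have h2 : ⌊(D : ℝ) * Int.fract t⌋₊ < D := by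
    rw [Nat.floor_lt (mul_nonneg hD0.le h0)]
    nlinarith
  refine ⟨⟨⌊(D : ℝ) * Int.fract t⌋₊, h2⟩, ?_, ?_⟩
  · simp only
    rw [div_le_iff₀ hD0]
    have := Nat.floor_le (mul_nonneg hD0.le h0)
    linarith
  · simp only
    rw [← add_div, lt_div_iff₀ hD0]
    have := Nat.lt_floor_add_one ((D : ℝ) * Int.fract t)
    linarith

theorem round_b {D : ℕ} (hD : 0 < D) {b : ℝ} (hb1 : 1 ≤ b) (hb2 : b ≤ 2) :
    ∃ k : Fin (D + 1), 1 + (k : ℝ) / D ≤ b ∧ b < 1 + (k : ℝ) / D + 1 / D := by
  have hD0 : (0 : ℝ) < D := by exact_mod_cast hD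
  have h0 : 0 ≤ b - 1 := by linarith
  have h2 : ⌊(D : ℝ) * (b - 1)⌋₊ < D + 1 := by
    rw [Nat.floor_lt (mul_nonneg hD0.le h0)]
    push_cast
    nlinarith
  refine ⟨⟨⌊(D : ℝ) * (b - 1)⌋₊, h2⟩, ?_, ?_⟩
  · simp only
    have h3 : (⌊(D : ℝ) * (b - 1)⌋₊ : ℝ) / D ≤ b - 1 := by
      rw [div_le_iff₀ hD0]
      have := Nat.floor_le (mul_nonneg hD0.le h0)
      linarith
    linarith
  · simp only
    have h3 : b - 1 < (⌊(D : ℝ) * (b - 1)⌋₊ : ℝ) / D + 1 / D := by
      rw [← add_div, lt_div_iff₀ hD0]
      have := Nat.lt_floor_add_one ((D : ℝ) * (b - 1))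
      linarith
    linarith

theorem hit {m C D : ℕ} [NeZero C] {ε : ℝ} (hε : 0 < ε) (hε1 : ε ≤ 1) (hD0 : 0 < D)
    (hD : 16 * (2 + m * C) / ε ≤ D)
    (x : Fin m → ℝ) (hx : ∀ i, 0 < x i) (i : Fin m)
    (hlac : ∑ l ∈ Finset.univ.filter (fun l => i < l), x i / x l ≤ ε / 32)
    {q b b' φ' : ℝ} (hb1 : 1 ≤ b) (hb2 : b ≤ 2) (hbb : b' ≤ b) (hbb' : b < b' + 1 / D)
    (c : Fin m → ZMod C) (hφ : φ' ≤ Int.fract (q * freq x c))
    (hφ' : Int.fract (q * freq x c) < φ' + 1 / D)
    (θ' : Fin m → ℝ) (hθ : ∀ l, θ' l ≤ Int.fract (b * x i / (C * x l)))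
    (hθ' : ∀ l, Int.fract (b * x i / (C * x l)) < θ' l + 1 / D)
    (z : ℤ)
    (hz : (z : ℝ) < φ' + ∑ l ∈ Finset.univ.filter (fun l => l < i), ((c l).val : ℝ) * θ' l +
      ((c i).val : ℝ) * b' / C)
    (hz' : φ' + ∑ l ∈ Finset.univ.filter (fun l => l < i), ((c l).val : ℝ) * θ' l +
      ((c i).val : ℝ) * b' / C < z + ε / 8) :
    0 < Int.fract (freq x c * (q + b * x i)) ∧
      Int.fract (freq x c * (q + b * x i)) < ε / 4 := by
  classical
  have hC : (0 : ℝ) < C := by exact_mod_cast NeZero.pos C
  have hDr : (0 : ℝ) < D := by exact_mod_cast hD0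
  have hval : ∀ l, ((c l).val : ℝ) ≤ C := fun l => by
    exact_mod_cast (ZMod.val_lt (c l)).le
  have hval0 : ∀ l, (0 : ℝ) ≤ ((c l).val : ℝ) := fun l => Nat.cast_nonneg _
  -- the decomposition of the value
  have hdec : freq x c * (q + b * x i) = q * freq x c +
      (∑ l ∈ Finset.univ.filter (fun l => l < i), ((c l).val : ℝ) * (b * x i / (C * x l)) +
      ((c i).val : ℝ) * b / C +
      ∑ l ∈ Finset.univ.filter (fun l => i < l), ((c l).val : ℝ) * (b * x i / (C * x l))) := by
    have h1 : freq x c * (b * x i) =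
        ∑ l, ((c l).val : ℝ) * (b * x i / (C * x l)) := by
      unfold freq
      rw [Finset.sum_mul]
      refine Finset.sum_congr rfl fun l _ => ?_
      ring
    have h2 : (Finset.univ : Finset (Fin m)) =
        (Finset.univ.filter (fun l => l < i) ∪ {i}) ∪ Finset.univ.filter (fun l => i < l) := by
      ext l
      simp only [Finset.mem_univ, Finset.mem_union, Finset.mem_filter, true_and,
        Finset.mem_singleton, true_iff]
      rcases lt_trichotomy l i with h | h | h
      · exact Or.inl (Or.inl h)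
      · exact Or.inl (Or.inr h)
      · exact Or.inr h
    have h3 : Disjoint (Finset.univ.filter (fun l => l < i) ∪ {i})
        (Finset.univ.filter (fun l => i < l)) := by
      rw [Finset.disjoint_left]
      intro l hl hl'
      simp only [Finset.mem_univ, Finset.mem_union, Finset.mem_filter, true_and,
        Finset.mem_singleton] at hl hl'
      rcases hl with hl | hl
      · exact absurd hl (not_lt.mpr hl'.le)
      · rw [hl] at hl'
        exact lt_irrefl _ hl'
    have h4 : Disjoint (Finset.univ.filter (fun l => l < i)) {i} := by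
      rw [Finset.disjoint_singleton_right]
      simp
    rw [mul_add, mul_comm (freq x c) q, h1]
    congr 1
    rw [h2, Finset.sum_union h3, Finset.sum_union h4, Finset.sum_singleton]
    have h5 : ((c i).val : ℝ) * (b * x i / (C * x i)) = ((c i).val : ℝ) * b / C := by
      have := (hx i).ne'
      field_simp
    rw [h5]
    congr 2
    · rw [← h2]
    · rw [← h2]
  -- the integer part
  obtain ⟨N, hN⟩ : ∃ N : ℤ, N = ⌊q * freq x c⌋ +
      ∑ l ∈ Finset.univ.filter (fun l => l < i), ((c l).val : ℤ) * ⌊b * x i / (C * x l)⌋ :=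
    ⟨_, rfl⟩
  have hN' : freq x c * (q + b * x i) - N = Int.fract (q * freq x c) +
      ∑ l ∈ Finset.univ.filter (fun l => l < i), ((c l).val : ℝ) *
        Int.fract (b * x i / (C * x l)) +
      ((c i).val : ℝ) * b / C +
      ∑ l ∈ Finset.univ.filter (fun l => i < l), ((c l).val : ℝ) * (b * x i / (C * x l)) := by
    rw [hdec, hN]
    push_cast
    have h1 : ∑ l ∈ Finset.univ.filter (fun l => l < i), ((c l).val : ℝ) *
        (b * x i / (C * x l)) =
        ∑ l ∈ Finset.univ.filter (fun l => l < i), ((c l).val : ℝ) *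
          (⌊b * x i / (C * x l)⌋ : ℝ) +
        ∑ l ∈ Finset.univ.filter (fun l => l < i), ((c l).val : ℝ) *
          Int.fract (b * x i / (C * x l)) := by
      rw [← Finset.sum_add_distrib]
      refine Finset.sum_congr rfl fun l _ => ?_
      rw [← mul_add, Int.floor_add_fract]
    have h2 := Int.floor_add_fract (q * freq x c)
    rw [h1]
    linarith
  -- lower bound
  have hlow : φ' + ∑ l ∈ Finset.univ.filter (fun l => l < i), ((c l).val : ℝ) * θ' l +
      ((c i).val : ℝ) * b' / C ≤ freq x c * (q + b * x i) - N := by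
    rw [hN']
    have h1 : ∑ l ∈ Finset.univ.filter (fun l => l < i), ((c l).val : ℝ) * θ' l ≤
        ∑ l ∈ Finset.univ.filter (fun l => l < i), ((c l).val : ℝ) *
          Int.fract (b * x i / (C * x l)) :=
      Finset.sum_le_sum fun l _ => mul_le_mul_of_nonneg_left (hθ l) (hval0 l)
    have h2 : 0 ≤ ∑ l ∈ Finset.univ.filter (fun l => i < l), ((c l).val : ℝ) *
        (b * x i / (C * x l)) := by
      refine Finset.sum_nonneg fun l _ => mul_nonneg (hval0 l) ?_
      exact div_nonneg (mul_nonneg (by linarith) (hx i).le) (mul_nonneg hC.le (hx l).le)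
    have h3 : ((c i).val : ℝ) * b' / C ≤ ((c i).val : ℝ) * b / C :=
      div_le_div_of_nonneg_right (mul_le_mul_of_nonneg_left hbb (hval0 i)) hC.le
    linarith
  -- upper bound
  have hup : freq x c * (q + b * x i) - N ≤ φ' +
      ∑ l ∈ Finset.univ.filter (fun l => l < i), ((c l).val : ℝ) * θ' l +
      ((c i).val : ℝ) * b' / C + ε / 8 := by
    rw [hN']
    have h1 : ∑ l ∈ Finset.univ.filter (fun l => l < i), ((c l).val : ℝ) *
          Int.fract (b * x i / (C * x l)) ≤
        ∑ l ∈ Finset.univ.filter (fun l => l < i), ((c l).val : ℝ) * θ' l + m * (C * (1 / D)) := by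
      calc ∑ l ∈ Finset.univ.filter (fun l => l < i), ((c l).val : ℝ) *
            Int.fract (b * x i / (C * x l))
          ≤ ∑ l ∈ Finset.univ.filter (fun l => l < i),
            (((c l).val : ℝ) * θ' l + C * (1 / D)) := by
            refine Finset.sum_le_sum fun l _ => ?_
            calc ((c l).val : ℝ) * Int.fract (b * x i / (C * x l))
                ≤ ((c l).val : ℝ) * (θ' l + 1 / D) :=
                  mul_le_mul_of_nonneg_left (hθ' l).le (hval0 l)
              _ = ((c l).val : ℝ) * θ' l + ((c l).val : ℝ) * (1 / D) := by ring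
              _ ≤ ((c l).val : ℝ) * θ' l + C * (1 / D) := by
                  have := mul_le_mul_of_nonneg_right (hval l)
                    (by positivity : (0 : ℝ) ≤ 1 / (D : ℝ))
                  linarith
        _ = ∑ l ∈ Finset.univ.filter (fun l => l < i), ((c l).val : ℝ) * θ' l +
            ((Finset.univ.filter (fun l => l < i)).card : ℝ) * (C * (1 / D)) := by
            rw [Finset.sum_add_distrib, Finset.sum_const, nsmul_eq_mul]
        _ ≤ _ := by
            have h2 : ((Finset.univ.filter (fun l : Fin m => l < i)).card : ℝ) ≤ m := by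
              have := Finset.card_le_univ (Finset.univ.filter (fun l : Fin m => l < i))
              rw [Fintype.card_fin] at this
              exact_mod_cast this
            have := mul_le_mul_of_nonneg_right h2
              (by positivity : (0 : ℝ) ≤ (C : ℝ) * (1 / (D : ℝ)))
            linarith
    have h2 : ∑ l ∈ Finset.univ.filter (fun l => i < l), ((c l).val : ℝ) *
        (b * x i / (C * x l)) ≤ ε / 16 := by
      calc ∑ l ∈ Finset.univ.filter (fun l => i < l), ((c l).val : ℝ) *
            (b * x i / (C * x l))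
          ≤ ∑ l ∈ Finset.univ.filter (fun l => i < l), 2 * (x i / x l) := by
            refine Finset.sum_le_sum fun l _ => ?_
            have h3 : 0 ≤ x i / x l := div_nonneg (hx i).le (hx l).le
            have h4 : ((c l).val : ℝ) * (b * x i / (C * x l)) =
                (((c l).val : ℝ) / C) * b * (x i / x l) := by
              have := (hx l).ne'
              field_simp
            rw [h4]
            refine mul_le_mul_of_nonneg_right ?_ h3
            have h5 : ((c l).val : ℝ) / C ≤ 1 := by
              rw [div_le_one hC]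
              exact hval l
            have h6 : 0 ≤ ((c l).val : ℝ) / C := div_nonneg (hval0 l) hC.le
            nlinarith
        _ = 2 * ∑ l ∈ Finset.univ.filter (fun l => i < l), (x i / x l) := by
            rw [Finset.mul_sum]
        _ ≤ ε / 16 := by linarith
    have h3 : ((c i).val : ℝ) * b / C ≤ ((c i).val : ℝ) * b' / C + 1 / D := by
      have h4 : ((c i).val : ℝ) * b ≤ ((c i).val : ℝ) * (b' + 1 / D) :=
        mul_le_mul_of_nonneg_left hbb'.le (hval0 i)
      have h5 := div_le_div_of_nonneg_right h4 hC.le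
      have h6 : ((c i).val : ℝ) * (b' + 1 / D) / C =
          ((c i).val : ℝ) * b' / C + (((c i).val : ℝ) / C) * (1 / D) := by ring
      have h7 : ((c i).val : ℝ) / C ≤ 1 := by
        rw [div_le_one hC]
        exact hval i
      have h8 := mul_le_mul_of_nonneg_right h7 (by positivity : (0 : ℝ) ≤ 1 / (D : ℝ))
      linarith
    have h4 : (2 + m * C) * (1 / (D : ℝ)) ≤ ε / 16 := by
      rw [div_le_iff₀ hε] at hD
      rw [mul_one_div, div_le_iff₀ hDr]
      linarith
    have h5 : (2 + m * C) * (1 / (D : ℝ)) = 1 / D + m * (C * (1 / D)) + 1 / D := by ring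
    linarith [hφ'.le]
  -- the fractional part
  have h1 : 0 < freq x c * (q + b * x i) - N - z := by linarith
  have h2 : freq x c * (q + b * x i) - N - z < ε / 4 := by linarith
  have h3 : Int.fract (freq x c * (q + b * x i)) = freq x c * (q + b * x i) - N - z := by
    have h4 : freq x c * (q + b * x i) = (freq x c * (q + b * x i) - N - z) + ((N + z : ℤ) : ℝ) := by
      push_cast
      ring
    rw [h4, Int.fract_add_intCast, Int.fract_eq_self.mpr ⟨h1.le, by linarith⟩]
    push_cast
    ring
  rw [h3]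
  exact ⟨h1, h2⟩

end Pool.Agent.H55.ES
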