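import Mathlib

/-!
# The union bound
-/

set_option autoImplicit false

open Real

namespace Pool.Agent.H55.ES

theorem union_bound {ε : ℝ} (hε : 0 < ε) {C : ℕ} (hC1 : 1 ≤ C)
    {R : ℝ} (hR3 : 3 ≤ R)
    (hR1 : 2 * C * (2 * log (408 / ε) + 4 + 3 * log (50 * C / ε)) ≤ R)
    (hlog0 : 0 ≤ log (408 / ε)) (hlog : 0 ≤ log (50 * C / ε))
    (hR2 : 16 * (C : ℝ) ^ 2 < R) {m n K D M : ℕ} (hm : R ≤ m) (hn : R * m * log m ≤ n)
    (hK : (K : ℝ) ≤ 12 * exp (m * n / R)) (hK1 : 0 < K) (hD : (D : ℝ) + 1 ≤ 50 * C / ε * m)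
    (hM : (M : ℝ) + 1 ≤ 34 * K / ε) :
    ((M : ℝ) * (M + 1)) * (((D : ℝ) + 1) * ((D : ℝ) ^ (m * m) * (D : ℝ) ^ n)) *
      ((1 - 1 / (C : ℝ)) ^ m) ^ n < 1 := by
  have hR0 : 0 < R := by linarith
  have hmR : (3 : ℝ) ≤ m := hR3.trans hm
  have hm0 : (0 : ℝ) < m := by linarith
  have hC0 : (0 : ℝ) < C := by exact_mod_cast hC1
  have hC1r : (1 : ℝ) ≤ C := by exact_mod_cast hC1
  -- `log m ≥ 1`
  have hlogm : 1 ≤ log m := by
    rw [Real.le_log_iff_exp_le hm0]
    have := Real.exp_one_lt_d9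
    linarith
  have hn1 : R * m ≤ n := by
    refine le_trans ?_ hn
    have : (0 : ℝ) ≤ R * m := by positivity
    nlinarith
  have hn0 : (0 : ℝ) < n := lt_of_lt_of_le (by positivity) hn1
  obtain ⟨Q, hQ⟩ : ∃ Q : ℝ, Q = m * n / R := ⟨_, rfl⟩
  have hQR : Q * R = m * n := by
    rw [hQ]
    field_simp
  have hQ0 : 0 < Q := by
    rw [hQ]
    positivity
  -- the simple comparisons
  have q1 : (1 : ℝ) ≤ Q := by
    rw [hQ, le_div_iff₀ hR0]
    nlinarith
  have q2 : (m : ℝ) * m ≤ Q := by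
    rw [hQ, le_div_iff₀ hR0]
    nlinarith
  have q3 : (n : ℝ) ≤ Q := by
    rw [hQ, le_div_iff₀ hR0]
    nlinarith
  have q4 : (m : ℝ) * m * log m ≤ Q := by
    rw [hQ, le_div_iff₀ hR0]
    nlinarith
  have q5 : log m ≤ Q := by
    refine le_trans ?_ q4
    have h1 : (1 : ℝ) ≤ m * m := by nlinarith
    have h2 : 0 ≤ log m := by linarith
    nlinarith
  -- `n log m ≤ 2 m n / √R`
  have hsR : 0 < √R := Real.sqrt_pos.mpr hR0
  have q6 : (n : ℝ) * log m ≤ 2 * (m * n) / √R := by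
    have h1 : log m ≤ 2 * √m := by
      have h2 : log m = 2 * log (√m) := by
        rw [Real.log_sqrt hm0.le]
        ring
      rw [h2]
      have h3 : log (√m) ≤ √m := by
        have := Real.log_le_sub_one_of_pos (Real.sqrt_pos.mpr hm0)
        linarith
      linarith
    have h4 : √m * √R ≤ m := by
      have h5 : √R ≤ √m := Real.sqrt_le_sqrt hm
      calc √m * √R ≤ √m * √m := mul_le_mul_of_nonneg_left h5 (Real.sqrt_nonneg _)
        _ = m := Real.mul_self_sqrt hm0.le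
    rw [le_div_iff₀ hsR]
    calc (n : ℝ) * log m * √R ≤ n * (2 * √m) * √R := by
          have := mul_le_mul_of_nonneg_left h1 hn0.le
          exact mul_le_mul_of_nonneg_right this hsR.le
      _ = 2 * n * (√m * √R) := by ring
      _ ≤ 2 * n * m := mul_le_mul_of_nonneg_left h4 (by positivity)
      _ = 2 * (m * n) := by ring
  -- `2 / √R < 1 / (2 C)`
  have q7 : 2 * ((m : ℝ) * n) / √R < m * n / (2 * C) := by
    have h1 : 4 * (C : ℝ) < √R := by
      rw [Real.lt_sqrt (by positivity)]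
      nlinarith
    rw [div_lt_div_iff₀ hsR (by positivity)]
    have h2 : (0 : ℝ) < m * n := by positivity
    nlinarith
  -- the three factors
  obtain ⟨A, hA⟩ : ∃ A : ℝ, A = 50 * C / ε := ⟨_, rfl⟩
  have hA0 : 0 < A := by
    rw [hA]
    positivity
  have hAm0 : 0 < A * m := by positivity
  have hM0 : (0 : ℝ) ≤ M := Nat.cast_nonneg _
  have f1 : (M : ℝ) * (M + 1) ≤ exp (2 * log (408 / ε) + 2 * Q) := by
    have h1 : (M : ℝ) + 1 ≤ 408 / ε * exp Q := by
      refine hM.trans ?_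
      rw [← hQ] at hK
      calc 34 * (K : ℝ) / ε ≤ 34 * (12 * exp Q) / ε := by
            refine div_le_div_of_nonneg_right ?_ hε.le
            linarith
        _ = 408 / ε * exp Q := by ring
    have h2 : exp (2 * log (408 / ε) + 2 * Q) = (408 / ε * exp Q) * (408 / ε * exp Q) := by
      rw [Real.exp_add, show 2 * log (408 / ε) = log (408 / ε) + log (408 / ε) by ring,
        show 2 * Q = Q + Q by ring, Real.exp_add, Real.exp_add, Real.exp_log (by positivity)]
      ring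
    rw [h2]
    exact mul_le_mul (by linarith) h1 (by linarith) (by positivity)
  have f2 : ((D : ℝ) + 1) * ((D : ℝ) ^ (m * m) * (D : ℝ) ^ n) ≤
      exp ((1 + m * m + n) * (log A + log m)) := by
    have hD' : (D : ℝ) + 1 ≤ A * m := by
      rw [hA]
      exact hD
    have hD0 : (0 : ℝ) ≤ D := Nat.cast_nonneg _
    have hD'' : (D : ℝ) ≤ A * m := by linarith
    have h1 : ((D : ℝ) + 1) * ((D : ℝ) ^ (m * m) * (D : ℝ) ^ n) ≤
        (A * m) * ((A * m) ^ (m * m) * (A * m) ^ n) := by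
      refine mul_le_mul hD' ?_ (by positivity) hAm0.le
      exact mul_le_mul (pow_le_pow_left₀ hD0 hD'' _) (pow_le_pow_left₀ hD0 hD'' _)
        (by positivity) (by positivity)
    refine h1.trans (le_of_eq ?_)
    rw [← pow_add, ← pow_succ', ← Real.log_mul hA0.ne' hm0.ne', mul_comm (1 + (m : ℝ) * m + n),
      Real.exp_mul, Real.exp_log hAm0, ← Real.rpow_natCast]
    congr 1
    push_cast
    ring
  have f3 : ((1 - 1 / (C : ℝ)) ^ m) ^ n ≤ exp (-(m * n / C)) := by
    rw [← pow_mul]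
    have h1 : 1 - 1 / (C : ℝ) ≤ exp (-(1 / C)) := Real.one_sub_le_exp_neg _
    have h2 : 0 ≤ 1 - 1 / (C : ℝ) := by
      rw [sub_nonneg, div_le_one hC0]
      exact hC1r
    refine (pow_le_pow_left₀ h2 h1 _).trans (le_of_eq ?_)
    rw [← Real.exp_nat_mul]
    congr 1
    push_cast
    ring
  have hfinal : (2 * log (408 / ε) + 2 * Q) + (1 + m * m + n) * (log A + log m) +
      (-(m * n / C)) < 0 := by
    rw [hA]
    obtain ⟨α, hα⟩ : ∃ α : ℝ, α = log (408 / ε) := ⟨_, rfl⟩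
    obtain ⟨β, hβ⟩ : ∃ β : ℝ, β = log (50 * C / ε) := ⟨_, rfl⟩
    rw [← hα, ← hβ] at hR1 ⊢
    rw [← hβ] at hlog
    rw [← hα] at hlog0
    have e1 : (1 + (m : ℝ) * m + n) * β ≤ 3 * Q * β :=
      mul_le_mul_of_nonneg_right (by linarith) hlog
    have e2 : (1 + (m : ℝ) * m + n) * log m ≤ 2 * Q + 2 * (m * n) / √R := by
      have : (1 + (m : ℝ) * m + n) * log m = log m + m * m * log m + n * log m := by ring
      rw [this]
      linarith
    have e3 : (m : ℝ) * n / C = m * n / (2 * C) + m * n / (2 * C) := by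
      field_simp
      ring
    have e4 : 2 * α + 2 * Q + 3 * Q * β + 2 * Q ≤ m * n / (2 * C) := by
      rw [le_div_iff₀ (by positivity), ← hQR]
      have h1 : 2 * α ≤ 2 * α * Q := by nlinarith
      have h2 : Q * (2 * C * (2 * α + 4 + 3 * β)) ≤ Q * R := mul_le_mul_of_nonneg_left hR1 hQ0.le
      have h3 : (2 * α + 2 * Q + 3 * Q * β + 2 * Q) * (2 * C) ≤
          (2 * α * Q + 2 * Q + 3 * Q * β + 2 * Q) * (2 * C) :=
        mul_le_mul_of_nonneg_right (by linarith) (by positivity)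
      nlinarith
    have e5 : (1 + (m : ℝ) * m + n) * (β + log m) =
        (1 + (m : ℝ) * m + n) * β + (1 + (m : ℝ) * m + n) * log m := by ring
    rw [e5, e3]
    linarith
  calc ((M : ℝ) * (M + 1)) * (((D : ℝ) + 1) * ((D : ℝ) ^ (m * m) * (D : ℝ) ^ n)) *
      ((1 - 1 / (C : ℝ)) ^ m) ^ n
      ≤ exp (2 * log (408 / ε) + 2 * Q) * exp ((1 + m * m + n) * (log A + log m)) *
        exp (-(m * n / C)) := by
        refine mul_le_mul (mul_le_mul f1 f2 (by positivity) (by positivity)) f3 ?_ (by positivity)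
        refine pow_nonneg (pow_nonneg ?_ _) _
        rw [sub_nonneg, div_le_one hC0]
        exact hC1r
    _ = exp ((2 * log (408 / ε) + 2 * Q) + (1 + m * m + n) * (log A + log m) +
        (-(m * n / C))) := by
        rw [← Real.exp_add, ← Real.exp_add]
    _ < 1 := Real.exp_lt_one_iff.mpr hfinal

end Pool.Agent.H55.ES
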