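import Pool.Agent.H55.ES.Finite
import Pool.Agent.H55.ES.Numeric

/-!
# From a grid of good quality to a blocking set
-/

set_option autoImplicit false

open MeasureTheory Set Finset Real

namespace Pool.Agent.H55.ES

theorem lac_sum {m : ℕ} {x : Fin m → ℝ} (hx : ∀ i, 0 < x i) {R : ℝ} (hR : 2 ≤ R)
    (hlac : ∀ i j, i < j → R * x i ≤ x j) (i : Fin m) :
    ∑ l ∈ Finset.univ.filter (fun l => i < l), x i / x l ≤ 2 / R := by
  classical
  have hR0 : 0 < R := by linarith
  have hr0 : 0 ≤ 1 / R := by positivity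
  have hr1 : 1 / R ≤ 1 / 2 := by
    rw [div_le_div_iff₀ hR0 (by norm_num)]
    linarith
  -- powers
  have hpow : ∀ k : ℕ, ∀ l : Fin m, l.val = i.val + (k + 1) → x i / x l ≤ (1 / R) ^ (k + 1) := by
    intro k
    induction k with
    | zero =>
      intro l hl
      have h1 : i < l := by
        rw [Fin.lt_def]
        omega
      have h2 := hlac i l h1
      rw [zero_add, pow_one, div_le_div_iff₀ (hx l) hR0]
      linarith
    | succ k ih =>
      intro l hl
      have hk : i.val + (k + 1) < m := by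
        have := l.2
        omega
      obtain ⟨l', hl'⟩ : ∃ l' : Fin m, l' = ⟨i.val + (k + 1), hk⟩ := ⟨_, rfl⟩
      have h1 := ih l' (by rw [hl'])
      have h2 : l' < l := by
        rw [Fin.lt_def, hl']
        simp only
        omega
      have h3 := hlac l' l h2
      have h4 : x l' / x l ≤ 1 / R := by
        rw [div_le_div_iff₀ (hx l) hR0]
        linarith
      have h5 : x i / x l = (x i / x l') * (x l' / x l) := by
        have := (hx l').ne'
        field_simp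
      rw [h5, pow_succ]
      exact mul_le_mul h1 h4 (div_nonneg (hx l').le (hx l).le) (by positivity)
  have h1 : ∑ l ∈ Finset.univ.filter (fun l => i < l), x i / x l ≤
      ∑ l ∈ Finset.univ.filter (fun l => i < l), (1 / R) ^ ((l.val - i.val - 1) + 1) := by
    refine Finset.sum_le_sum fun l hl => ?_
    have h2 : i < l := (Finset.mem_filter.mp hl).2
    rw [Fin.lt_def] at h2
    exact hpow (l.val - i.val - 1) l (by omega)
  have h2 : ∑ l ∈ Finset.univ.filter (fun l => i < l), (1 / R) ^ ((l.val - i.val - 1) + 1) =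
      ∑ k ∈ (Finset.univ.filter (fun l => i < l)).image (fun l : Fin m => l.val - i.val - 1),
        (1 / R) ^ (k + 1) := by
    rw [Finset.sum_image]
    intro l hl l' hl' h
    have h3 : i < l := (Finset.mem_filter.mp hl).2
    have h4 : i < l' := (Finset.mem_filter.mp hl').2
    rw [Fin.lt_def] at h3 h4
    simp only at h
    ext
    omega
  have h3 : ∑ k ∈ (Finset.univ.filter (fun l => i < l)).image (fun l : Fin m => l.val - i.val - 1),
        (1 / R) ^ (k + 1) ≤ ∑ k ∈ Finset.range m, (1 / R) ^ (k + 1) := by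
    refine Finset.sum_le_sum_of_subset_of_nonneg ?_ fun k _ _ => by positivity
    intro k hk
    rw [Finset.mem_image] at hk
    obtain ⟨l, _, hl⟩ := hk
    rw [Finset.mem_range]
    have := l.2
    omega
  have h4 : ∑ k ∈ Finset.range m, (1 / R) ^ (k + 1) ≤ 2 / R := by
    have h5 : ∑ k ∈ Finset.range m, (1 / R) ^ (k + 1) =
        (1 / R) * ∑ k ∈ Finset.range m, (1 / R) ^ k := by
      rw [Finset.mul_sum]
      refine Finset.sum_congr rfl fun k _ => ?_
      rw [pow_succ]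
      ring
    have h6 : ∑ k ∈ Finset.range m, (1 / R) ^ k ≤ 2 := by
      have h7 : ∑ k ∈ Finset.range m, (1 / R) ^ k ≤ ∑ k ∈ Finset.range m, (1 / 2 : ℝ) ^ k :=
        Finset.sum_le_sum fun k _ => pow_le_pow_left₀ hr0 hr1 k
      have h8 : ∀ N : ℕ, ∑ k ∈ Finset.range N, (1 / 2 : ℝ) ^ k = 2 - 2 * (1 / 2) ^ N := by
        intro N
        induction N with
        | zero => simp
        | succ N ih =>
          rw [Finset.sum_range_succ, ih, pow_succ]
          ring
      have h9 := h8 m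
      have : (0 : ℝ) ≤ (1 / 2) ^ m := by positivity
      linarith
    rw [h5]
    calc 1 / R * ∑ k ∈ Finset.range m, (1 / R) ^ k ≤ 1 / R * 2 :=
          mul_le_mul_of_nonneg_left h6 hr0
      _ = 2 / R := by ring
  linarith

theorem normal {ε : ℝ} (hε : 0 < ε) (hε1 : ε ≤ 1) : ∃ R₀ : ℝ, 1 ≤ R₀ ∧ ∀ R : ℝ, R₀ ≤ R →
    ∀ (m n : ℕ) (x : Fin m → ℝ) (y : Fin n → ℝ) (δ : ℝ), 0 < δ → R ≤ m → R * m * log m ≤ n →
    (∀ i, 0 < x i ∧ x i ≤ δ / R) → (∀ i j, i < j → R * x i ≤ x j) →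
    (∀ j k, j ≠ k → δ ≤ |y j - y k| ∧ |y j - y k| ≤ δ * exp (m * n / R)) →
    ∃ s : ℝ, 0 < s ∧ (∃ j k, s = 4 * |y j - y k|) ∧ 0 < m ∧ ∃ U : Set ℝ, MeasurableSet U ∧
      (∀ u v : ℝ, u ≤ v → volume (U ∩ Icc u v) ≤ ENNReal.ofReal (ε * (v - u + 2))) ∧
      ∀ a b : ℝ, 1 ≤ b → b ≤ 2 → ∃ i j, a + b * ((x i + y j) / s) ∈ U := by
  classical
  obtain ⟨C, hC⟩ : ∃ C : ℕ, C = ⌊24 / ε⌋₊ + 1 := ⟨_, rfl⟩
  have hC24 : 24 < ε * C := by
    have h1 := Nat.lt_floor_add_one (24 / ε)
    rw [div_lt_iff₀ hε] at h1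
    rw [hC]
    push_cast
    linarith
  have hC1 : 1 ≤ C := by omega
  have : NeZero C := ⟨by omega⟩
  have hC0 : (0 : ℝ) < C := by exact_mod_cast hC1
  have hC1r : (1 : ℝ) ≤ C := by exact_mod_cast hC1
  obtain ⟨R₀, hR₀⟩ : ∃ R₀ : ℝ, R₀ = 3 + |2 * C * (2 * log (408 / ε) + 4 +
    3 * log (50 * C / ε))| + (16 * (C : ℝ) ^ 2 + 1) + 144 * C / ε + 64 / ε := ⟨_, rfl⟩
  have p1 : 0 ≤ |2 * C * (2 * log (408 / ε) + 4 + 3 * log (50 * C / ε))| := abs_nonneg _
  have p1' := le_abs_self (2 * C * (2 * log (408 / ε) + 4 + 3 * log (50 * C / ε)))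
  have p2 : 0 ≤ 16 * (C : ℝ) ^ 2 := by positivity
  have p3 : 0 ≤ 144 * (C : ℝ) / ε := by positivity
  have p4 : 0 ≤ 64 / ε := by positivity
  refine ⟨R₀, by linarith, ?_⟩
  intro R hR m n x y δ hδ hm hn hx hlac hy
  have r1 : 3 ≤ R := by linarith
  have r2 : 2 * C * (2 * log (408 / ε) + 4 + 3 * log (50 * C / ε)) ≤ R := by linarith
  have r3 : 16 * (C : ℝ) ^ 2 < R := by linarith
  have r4 : 144 * (C : ℝ) / ε ≤ R := by linarith
  have r5 : 64 / ε ≤ R := by linarith
  have hR0 : 0 < R := by linarith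
  have hm3 : (3 : ℝ) ≤ m := r1.trans hm
  have hm0r : (0 : ℝ) < m := by linarith
  have hm0 : 0 < m := by exact_mod_cast hm0r
  have hm1r : (1 : ℝ) ≤ m := by linarith
  have hlogm : 1 ≤ log m := by
    rw [Real.le_log_iff_exp_le hm0r]
    have := Real.exp_one_lt_d9
    linarith
  have hn2 : 2 ≤ n := by
    have h1 : (9 : ℝ) ≤ R * m := by nlinarith
    have h2 : (9 : ℝ) ≤ n := by nlinarith
    have h3 : (2 : ℝ) ≤ n := by linarith
    exact_mod_cast h3
  -- the largest distance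
  obtain ⟨j0, hj0⟩ : ∃ j0 : Fin n, j0 = ⟨0, by omega⟩ := ⟨_, rfl⟩
  obtain ⟨j1, hj1⟩ : ∃ j1 : Fin n, j1 = ⟨1, by omega⟩ := ⟨_, rfl⟩
  have hj01 : j0 ≠ j1 := by
    rw [hj0, hj1]
    intro h
    rw [Fin.ext_iff] at h
    simp at h
  obtain ⟨p, _, hp⟩ := Finset.exists_max_image (Finset.univ : Finset (Fin n × Fin n))
    (fun p => |y p.1 - y p.2|) ⟨(j0, j1), Finset.mem_univ _⟩
  obtain ⟨L, hL⟩ : ∃ L : ℝ, L = |y p.1 - y p.2| := ⟨_, rfl⟩
  have hmax : ∀ j k, |y j - y k| ≤ L := by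
    intro j k
    rw [hL]
    exact hp (j, k) (Finset.mem_univ _)
  have hδL : δ ≤ L := (hy j0 j1 hj01).1.trans (hmax j0 j1)
  have hL0 : 0 < L := by linarith
  have hne : p.1 ≠ p.2 := by
    intro h
    rw [h, sub_self, abs_zero] at hL
    linarith
  have hLexp : L ≤ δ * exp (m * n / R) := by
    rw [hL]
    exact (hy p.1 p.2 hne).2
  obtain ⟨jm, _, hjm⟩ := Finset.exists_min_image (Finset.univ : Finset (Fin n)) y
    ⟨j0, Finset.mem_univ _⟩
  -- the normalised grid
  obtain ⟨x', hx'⟩ : ∃ x' : Fin m → ℝ, ∀ i, x' i = x i / (4 * L) := ⟨_, fun _ => rfl⟩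
  obtain ⟨y', hy'⟩ : ∃ y' : Fin n → ℝ, ∀ j, y' j = (y j - y jm) / (4 * L) := ⟨_, fun _ => rfl⟩
  obtain ⟨K, hK⟩ : ∃ K : ℕ, K = ⌈8 * L / δ⌉₊ := ⟨_, rfl⟩
  have hLδ : 1 ≤ L / δ := by
    rw [le_div_iff₀ hδ]
    linarith
  have hK1 : 8 * L / δ ≤ K := by
    rw [hK]
    exact Nat.le_ceil _
  have hK2 : (K : ℝ) ≤ 9 * (L / δ) := by
    have h1 : (K : ℝ) < 8 * L / δ + 1 := by
      rw [hK]
      exact Nat.ceil_lt_add_one (by positivity)
    have h2 : 8 * L / δ = 8 * (L / δ) := by ring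
    rw [h2] at h1
    linarith
  have hK8 : (8 : ℝ) ≤ K := by
    have h2 : 8 * L / δ = 8 * (L / δ) := by ring
    rw [h2] at hK1
    linarith
  have hK3 : 3 ≤ K := by
    have : (3 : ℝ) ≤ K := by linarith
    exact_mod_cast this
  have hK0 : 0 < K := by omega
  have hKexp : (K : ℝ) ≤ 12 * exp (m * n / R) := by
    have h1 : L / δ ≤ exp (m * n / R) := by
      rw [div_le_iff₀ hδ]
      linarith
    have h2 := Real.exp_pos ((m : ℝ) * n / R)
    linarith
  obtain ⟨D, hD⟩ : ∃ D : ℕ, D = ⌈16 * (2 + (m : ℝ) * C) / ε⌉₊ := ⟨_, rfl⟩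
  have hD1 : 16 * (2 + (m : ℝ) * C) / ε ≤ D := by
    rw [hD]
    exact Nat.le_ceil _
  have hmC : 1 ≤ (m : ℝ) * C := by nlinarith
  have hD2 : (D : ℝ) + 1 ≤ 50 * C / ε * m := by
    have h1 : (D : ℝ) < 16 * (2 + (m : ℝ) * C) / ε + 1 := by
      rw [hD]
      exact Nat.ceil_lt_add_one (by positivity)
    have h2 : 50 * (C : ℝ) / ε * m = 50 * (m * C) / ε := by ring
    have h3 : 16 * (2 + (m : ℝ) * C) / ε + 2 ≤ 50 * (m * C) / ε := by
      rw [← sub_nonneg]
      have h4 : 50 * ((m : ℝ) * C) / ε - (16 * (2 + (m : ℝ) * C) / ε + 2) =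
          (34 * (m * C) - 32 - 2 * ε) / ε := by
        field_simp
        ring
      rw [h4]
      refine div_nonneg ?_ hε.le
      linarith
    rw [h2]
    linarith
  obtain ⟨M, hM⟩ : ∃ M : ℕ, M = ⌊32 * (K : ℝ) / ε⌋₊ + 1 := ⟨_, rfl⟩
  have hM1 : 32 * (K : ℝ) / ε < M := by
    rw [hM]
    push_cast
    exact Nat.lt_floor_add_one _
  have hM2 : (M : ℝ) + 1 ≤ 34 * K / ε := by
    have h1 : (M : ℝ) ≤ 32 * (K : ℝ) / ε + 1 := by
      rw [hM]
      push_cast
      have := Nat.floor_le (by positivity : 0 ≤ 32 * (K : ℝ) / ε)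
      linarith
    have h2 : 34 * (K : ℝ) / ε = 32 * K / ε + 2 * (K / ε) := by ring
    have h3 : 1 ≤ (K : ℝ) / ε := by
      rw [le_div_iff₀ hε]
      linarith
    rw [h2]
    linarith
  have hU := union_bound hε hC1 r1 r2 (by
      refine Real.log_nonneg ?_
      rw [le_div_iff₀ hε]
      linarith) (by
      refine Real.log_nonneg ?_
      rw [le_div_iff₀ hε]
      linarith) r3 hm hn hKexp hK0 hD2 hM2
  have h4L : 0 < 4 * L := by linarith
  obtain ⟨U, hUm, hUc, hUh⟩ := finite_lemma hε hε1 hm0 hK3 hC24 x' y'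
    (fun i => by
      rw [hx']
      exact div_pos (hx i).1 h4L)
    (fun i => by
      rw [hx']
      have h1 := (hx i).2
      have h2 : C * K * (x i / (4 * L)) ≤ C * (9 * (L / δ)) * ((δ / R) / (4 * L)) := by
        refine mul_le_mul (mul_le_mul_of_nonneg_left hK2 hC0.le) ?_ ?_ (by positivity)
        · exact div_le_div_of_nonneg_right h1 h4L.le
        · exact (div_pos (hx i).1 h4L).le
      have h3 : C * (9 * (L / δ)) * ((δ / R) / (4 * L)) = 9 * C / (4 * R) := by
        field_simp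
      rw [h3] at h2
      refine h2.trans ?_
      rw [div_le_iff₀ hε] at r4
      rw [div_le_div_iff₀ (by positivity) (by norm_num)]
      nlinarith)
    (fun i => by
      have h1 := lac_sum (fun i => (hx i).1) (by linarith : (2 : ℝ) ≤ R) hlac i
      have h2 : ∑ l ∈ Finset.univ.filter (fun l => i < l), x' i / x' l =
          ∑ l ∈ Finset.univ.filter (fun l => i < l), x i / x l := by
        refine Finset.sum_congr rfl fun l _ => ?_
        rw [hx', hx']
        have := (hx l).1.ne'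
        field_simp
      rw [h2]
      refine h1.trans ?_
      rw [div_le_iff₀ hε] at r5
      rw [div_le_div_iff₀ hR0 (by norm_num)]
      linarith)
    (fun j => by
      rw [hy']
      exact div_nonneg (sub_nonneg.mpr (hjm j (Finset.mem_univ _))) h4L.le)
    (fun j => by
      rw [hy', div_le_div_iff₀ h4L (by norm_num)]
      have := (le_abs_self _).trans (hmax j jm)
      linarith)
    (fun j k hjk => by
      rw [hy', hy']
      have h1 : (y j - y jm) / (4 * L) - (y k - y jm) / (4 * L) = (y j - y k) / (4 * L) := by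
        ring
      rw [h1, abs_div, abs_of_pos h4L]
      have h2 := (hy j k hjk).1
      have h3 : (8 * L / δ) * (δ / (4 * L)) ≤ K * (|y j - y k| / (4 * L)) := by
        refine mul_le_mul hK1 ?_ (by positivity) (by positivity)
        exact div_le_div_of_nonneg_right h2 h4L.le
      have h4 : (8 * L / δ) * (δ / (4 * L)) = 2 := by
        field_simp
        norm_num
      rw [h4] at h3
      exact h3)
    hD1 hM1 hU
  refine ⟨4 * L, h4L, ⟨p.1, p.2, by rw [hL]⟩, hm0, U, hUm, ?_, ?_⟩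
  · intro u v huv
    exact cell_interval hK0 hε.le hUc huv
  · intro a b hb1 hb2
    obtain ⟨i, j, hij⟩ := hUh (a + b * (y jm / (4 * L))) b hb1 hb2
    refine ⟨i, j, ?_⟩
    have h1 : a + b * ((x i + y j) / (4 * L)) =
        a + b * (y jm / (4 * L)) + b * (x' i + y' j) := by
      rw [hx', hy']
      field_simp
      ring
    rw [h1]
    exact hij

end Pool.Agent.H55.ES
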