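import Pool.Agent.H55.ES.Final

/-!
# Sums of an arbitrary infinite set and a set which is not too sparse
-/

set_option autoImplicit false

open MeasureTheory Set Real

namespace Pool.Agent.H55.ES

/-- `Y` is not too sparse: it has finite subsets with arbitrarily many points `y_j`, `j < n`,
such that the logarithm of the ratio between the largest and the smallest distance is as small
as we want compared with `n ^ 2 / log n`. -/
def NotTooSparse (Y : Set ℝ) : Prop :=
  ∀ R : ℝ, ∃ (n : ℕ) (y : Fin n → ℝ) (δ : ℝ), R ≤ n ∧ 0 < δ ∧ (∀ j, y j ∈ Y) ∧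
    ∀ j k, j ≠ k → δ ≤ |y j - y k| ∧ R * log n * log (|y j - y k| / δ) ≤ (n : ℝ) ^ 2

theorem avoidable_affine {Z : Set ℝ} {c d : ℝ} (hc : c ≠ 0)
    (h : Avoidable ((fun z => c * z + d) '' Z)) : Avoidable Z := by
  intro ε hε
  obtain ⟨E, hE1, hE2, hE3, hE4⟩ := h ε hε
  refine ⟨E, hE1, hE2, hE3, ?_⟩
  intro a b hb hcopy
  refine hE4 (a - b / c * d) (b / c) (div_ne_zero hb hc) ?_
  rintro _ ⟨z, hz, rfl⟩
  have h1 := hcopy z hz
  have h2 : a - b / c * d + b / c * (c * z + d) = a + b * z := by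
    field_simp
    ring
  simp only
  rw [h2]
  exact h1

theorem choose_points {X : Set ℝ} (hX : ∀ η : ℝ, 0 < η → ∃ x ∈ X, 0 < x ∧ x < η) {R : ℝ}
    (hR : 1 ≤ R) {η : ℝ} (hη : 0 < η) (m : ℕ) : ∃ x : Fin m → ℝ, (∀ i, x i ∈ X) ∧
      (∀ i, 0 < x i ∧ x i ≤ η) ∧ (∀ i j, i < j → R * x i ≤ x j) ∧ ∃ μ : ℝ, 0 < μ ∧
      ∀ i, μ ≤ x i := by
  have hR0 : 0 < R := by linarith
  induction m with
  | zero =>
    exact ⟨fun i => i.elim0, fun i => i.elim0, fun i => i.elim0, fun i => i.elim0, 1, one_pos,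
      fun i => i.elim0⟩
  | succ m ih =>
    obtain ⟨x, hx1, hx2, hx3, μ, hμ, hμx⟩ := ih
    obtain ⟨t, ht, ht0, ht1⟩ := hX (min η (μ / R)) (lt_min hη (by positivity))
    have ht2 : t < η := lt_of_lt_of_le ht1 (min_le_left _ _)
    have ht3 : R * t ≤ μ := by
      have := (lt_of_lt_of_le ht1 (min_le_right _ _)).le
      rw [le_div_iff₀ hR0] at this
      linarith
    have htμ : t ≤ μ := by nlinarith
    refine ⟨Fin.cons t x, ?_, ?_, ?_, t, ht0, ?_⟩
    · intro i
      refine Fin.cases ?_ (fun i => ?_) i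
      · rw [Fin.cons_zero]
        exact ht
      · rw [Fin.cons_succ]
        exact hx1 i
    · intro i
      refine Fin.cases ?_ (fun i => ?_) i
      · rw [Fin.cons_zero]
        exact ⟨ht0, ht2.le⟩
      · rw [Fin.cons_succ]
        exact hx2 i
    · intro i j
      refine Fin.cases ?_ (fun i => ?_) i
      · refine Fin.cases ?_ (fun j => ?_) j
        · intro h
          exact absurd h (lt_irrefl _)
        · intro _
          rw [Fin.cons_zero, Fin.cons_succ]
          exact ht3.trans (hμx j)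
      · refine Fin.cases ?_ (fun j => ?_) j
        · intro h
          exact absurd h (Fin.not_lt_zero _)
        · intro h
          rw [Fin.cons_succ, Fin.cons_succ]
          exact hx3 i j (Fin.succ_lt_succ_iff.mp h)
    · intro i
      refine Fin.cases ?_ (fun i => ?_) i
      · rw [Fin.cons_zero]
      · rw [Fin.cons_succ]
        exact htμ.trans (hμx i)

/-- a sum of a set accumulating at `0` from the right and a set which is not too sparse contains
grids of every quality -/
theorem grid_of_sum {X Y : Set ℝ} (hX : ∀ η : ℝ, 0 < η → ∃ x ∈ X, 0 < x ∧ x < η)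
    (hY : NotTooSparse Y) {Z : Set ℝ} (hZ : ∀ x ∈ X, ∀ y ∈ Y, x + y ∈ Z) (R : ℝ) (hR : 1 ≤ R) :
    HasGrid Z R := by
  have hR0 : 0 < R := by linarith
  obtain ⟨R', hR'⟩ : ∃ R' : ℝ, R' = 4 * (R ^ 2 + 3 * R) ^ 2 := ⟨_, rfl⟩
  obtain ⟨n, y, δ, hn, hδ, hyY, hy⟩ := hY R'
  have hR64 : 64 ≤ R' := by
    have h1 : 4 ≤ R ^ 2 + 3 * R := by nlinarith
    rw [hR']
    nlinarith
  have hn64 : (64 : ℝ) ≤ n := hR64.trans hn
  have hn0 : (0 : ℝ) < n := by linarith
  have hlogn : 1 ≤ log n := by
    rw [Real.le_log_iff_exp_le hn0]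
    have := Real.exp_one_lt_d9
    linarith
  have hlogn0 : 0 < log n := by linarith
  -- `log n ≤ 2 √n`
  have hlog : log n ≤ 2 * √n := by
    have h2 : log n = 2 * log (√n) := by
      rw [Real.log_sqrt hn0.le]
      ring
    rw [h2]
    have h3 : log (√n) ≤ √n := by
      have := Real.log_le_sub_one_of_pos (Real.sqrt_pos.mpr hn0)
      linarith
    linarith
  have hsq : 2 * (R ^ 2 + 3 * R) ≤ √n := by
    rw [Real.le_sqrt' (by positivity)]
    calc (2 * (R ^ 2 + 3 * R)) ^ 2 = R' := by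
          rw [hR']
          ring
      _ ≤ n := hn
  have hq : R + 3 ≤ n / (R * log n) := by
    rw [le_div_iff₀ (by positivity)]
    calc (R + 3) * (R * log n) = (R ^ 2 + 3 * R) * log n := by ring
      _ ≤ (R ^ 2 + 3 * R) * (2 * √n) := mul_le_mul_of_nonneg_left hlog (by positivity)
      _ = (2 * (R ^ 2 + 3 * R)) * √n := by ring
      _ ≤ √n * √n := mul_le_mul_of_nonneg_right hsq (Real.sqrt_nonneg _)
      _ = n := Real.mul_self_sqrt hn0.le
  obtain ⟨m, hm⟩ : ∃ m : ℕ, m = ⌊n / (R * log n)⌋₊ := ⟨_, rfl⟩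
  have hm1 : (m : ℝ) ≤ n / (R * log n) := by
    rw [hm]
    exact Nat.floor_le (by positivity)
  have hm2 : n / (R * log n) < m + 1 := by
    rw [hm]
    exact Nat.lt_floor_add_one _
  have hmR : R ≤ m := by linarith
  have hm0 : (0 : ℝ) < m := by linarith
  obtain ⟨x, hxX, hx, hlac, _⟩ := choose_points hX hR (η := δ / R) (by positivity) m
  refine ⟨m, n, x, y, δ, hδ, hmR, ?_, hx, hlac, ?_, fun i j => hZ _ (hxX i) _ (hyY j)⟩
  · have h1 : log m ≤ log n := by
      refine Real.log_le_log hm0 (hm1.trans ?_)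
      rw [div_le_iff₀ (by positivity)]
      have : 1 ≤ R * log n := by nlinarith
      nlinarith
    have h2 : R * m * log m ≤ R * m * log n := mul_le_mul_of_nonneg_left h1 (by positivity)
    rw [le_div_iff₀ (by positivity)] at hm1
    linarith
  · intro j k hjk
    obtain ⟨h1, h2⟩ := hy j k hjk
    refine ⟨h1, ?_⟩
    have hd0 : 0 < |y j - y k| := lt_of_lt_of_le hδ h1
    have h3 : log (|y j - y k| / δ) ≤ m * n / R := by
      have h4 : n / (R * log n) ≤ 2 * m := by linarith
      have h5 : (n : ℝ) ^ 2 / (2 * R ^ 2 * log n) ≤ m * n / R := by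
        rw [div_le_iff₀ (by positivity)] at h4
        rw [div_le_div_iff₀ (by positivity) (by positivity)]
        have h6 : (n : ℝ) ^ 2 * R ≤ (2 * m * (R * log n)) * n * R := by
          have := mul_le_mul_of_nonneg_right h4 (by positivity : (0 : ℝ) ≤ n * R)
          nlinarith
        calc (n : ℝ) ^ 2 * R ≤ (2 * m * (R * log n)) * n * R := h6
          _ = m * n * (2 * R ^ 2 * log n) := by ring
      refine le_trans ?_ h5
      rw [le_div_iff₀ (by positivity)]
      have h7 : 0 ≤ log (|y j - y k| / δ) := by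
        refine Real.log_nonneg ?_
        rw [le_div_iff₀ hδ]
        linarith
      have h8 : 2 * R ^ 2 ≤ R' := by
        rw [hR']
        nlinarith [sq_nonneg R, sq_nonneg (R ^ 2), mul_pos hR0 hR0]
      have h9 : 2 * R ^ 2 * (log n * log (|y j - y k| / δ)) ≤
          R' * (log n * log (|y j - y k| / δ)) :=
        mul_le_mul_of_nonneg_right h8 (mul_nonneg hlogn0.le h7)
      linarith
    have h10 : |y j - y k| / δ ≤ exp (m * n / R) := by
      rw [← Real.log_le_iff_le_exp (by positivity)]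
      exact h3
    rw [div_le_iff₀ hδ] at h10
    linarith

theorem avoid_unbounded {Z : Set ℝ} (hZ : ∀ T : ℝ, ∃ z ∈ Z, T < |z|) : Avoidable Z := by
  intro ε hε
  refine ⟨Icc 0 1, subset_rfl, measurableSet_Icc, ?_, ?_⟩
  · rw [Real.volume_Icc]
    exact ENNReal.ofReal_le_ofReal (by linarith)
  · intro a b hb hcopy
    have hb0 : 0 < |b| := abs_pos.mpr hb
    obtain ⟨z, hz, hzT⟩ := hZ ((1 + |a|) / |b|)
    have h1 := hcopy z hz
    have h2 : |b * z| ≤ 1 + |a| := by
      have h3 : b * z = (a + b * z) - a := by ring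
      rw [h3]
      refine (abs_sub _ _).trans ?_
      have : |a + b * z| ≤ 1 := by
        rw [abs_le]
        constructor <;> linarith [h1.1, h1.2]
      linarith
    rw [abs_mul] at h2
    rw [div_lt_iff₀ hb0] at hzT
    linarith

/-- the sum of an arbitrary infinite set and a set which is not too sparse is avoidable -/
theorem avoid_sum {X Y : Set ℝ} (hX : X.Infinite) (hY : NotTooSparse Y) :
    Avoidable {z | ∃ x ∈ X, ∃ y ∈ Y, z = x + y} := by
  obtain ⟨y₀, hy₀⟩ : ∃ y₀, y₀ ∈ Y := by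
    obtain ⟨n, y, δ, hn, _, hyY, _⟩ := hY 1
    have hn1 : 0 < n := by
      have : (1 : ℝ) ≤ n := hn
      exact_mod_cast (by linarith : (0 : ℝ) < n)
    exact ⟨y ⟨0, hn1⟩, hyY _⟩
  by_cases hb : ∃ T : ℝ, ∀ x ∈ X, |x| ≤ T
  · -- an accumulation point
    obtain ⟨T, hT⟩ := hb
    have hsub : X ⊆ Icc (-T) T := fun x hx => abs_le.mp (hT x hx)
    obtain ⟨p, _, hp⟩ := hX.exists_accPt_of_subset_isCompact isCompact_Icc hsub
    have hacc : ∀ η : ℝ, 0 < η → ∃ x ∈ X, x ≠ p ∧ |x - p| < η := by
      intro η hη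
      rw [accPt_iff_nhds] at hp
      obtain ⟨x, ⟨hx1, hx2⟩, hx3⟩ := hp (Metric.ball p η) (Metric.ball_mem_nhds p hη)
      refine ⟨x, hx2, hx3, ?_⟩
      rw [Metric.mem_ball, Real.dist_eq] at hx1
      exact hx1
    by_cases hright : ∀ η : ℝ, 0 < η → ∃ x ∈ X, p < x ∧ x < p + η
    · refine avoidable_affine (c := 1) (d := -p) one_ne_zero (avoid_of_grid fun R hR => ?_)
      refine grid_of_sum (X := {t | t + p ∈ X}) (Y := Y) ?_ hY ?_ R hR
      · intro η hη
        obtain ⟨x, hx, h1, h2⟩ := hright η hη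
        refine ⟨x - p, ?_, by linarith, by linarith⟩
        show x - p + p ∈ X
        rwa [sub_add_cancel]
      · intro x hx y hy
        exact ⟨x + p + y, ⟨x + p, hx, y, hy, rfl⟩, by ring⟩
    · push Not at hright
      obtain ⟨η₀, hη₀, hno⟩ := hright
      refine avoidable_affine (c := -1) (d := p) (by norm_num) (avoid_of_grid fun R hR => ?_)
      refine grid_of_sum (X := {t | p - t ∈ X}) (Y := {t | -t ∈ Y}) ?_ ?_ ?_ R hR
      · intro η hη
        obtain ⟨x, hx, hne, h2⟩ := hacc (min η η₀) (lt_min hη hη₀)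
        have h3 : x < p := by
          by_contra h
          push Not at h
          have h4 : p < x := lt_of_le_of_ne h (Ne.symm hne)
          have h5 := hno x hx h4
          have h6 : |x - p| < η₀ := lt_of_lt_of_le h2 (min_le_right _ _)
          rw [abs_of_pos (by linarith)] at h6
          linarith
        have h7 : |x - p| < η := lt_of_lt_of_le h2 (min_le_left _ _)
        rw [abs_of_neg (by linarith)] at h7
        refine ⟨p - x, ?_, by linarith, by linarith⟩
        show p - (p - x) ∈ X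
        rwa [sub_sub_cancel]
      · intro R'
        obtain ⟨n, y, δ, hn, hδ, hyY, hy⟩ := hY R'
        refine ⟨n, fun j => -y j, δ, hn, hδ, fun j => ?_, fun j k hjk => ?_⟩
        · show -(-y j) ∈ Y
          rw [neg_neg]
          exact hyY j
        · have h1 : |(-y j) - (-y k)| = |y j - y k| := by
            rw [show (-y j) - (-y k) = -(y j - y k) by ring, abs_neg]
          rw [h1]
          exact hy j k hjk
      · intro x hx y hy
        refine ⟨p - x + -y, ⟨p - x, hx, -y, hy, rfl⟩, ?_⟩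
        ring
  · push Not at hb
    refine avoid_unbounded fun T => ?_
    obtain ⟨x, hx, hxT⟩ := hb (T + |y₀|)
    refine ⟨x + y₀, ⟨x, hx, y₀, hy₀, rfl⟩, ?_⟩
    have h1 : |x| ≤ |x + y₀| + |y₀| := by
      have h2 : x = (x + y₀) - y₀ := by ring
      calc |x| = |(x + y₀) - y₀| := by rw [← h2]
        _ ≤ |x + y₀| + |y₀| := abs_sub _ _
    linarith

end Pool.Agent.H55.ES
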