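import Pool.Agent.H55.ES.Final

/-!
# A family of null sequences which contain grids of every quality
-/

set_option autoImplicit false

open MeasureTheory Set Real Filter

namespace Pool.Agent.H55.ES

/-- if `x_(i+1) / x_i` tends to `0` then the null sequence of the numbers `2 ^ (-j) + x_i`,
`j ≤ i ≤ 3 j`, is avoidable -/
theorem avoid_window (x : ℕ → ℝ) (hx : ∀ i, 0 < x i)
    (hlim : Tendsto (fun i => x (i + 1) / x i) atTop (nhds 0)) :
    Avoidable {z | ∃ i j : ℕ, j ≤ i ∧ i ≤ 3 * j ∧ z = (1 / 2 : ℝ) ^ j + x i} := by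
  refine avoid_of_grid fun R hR => ?_
  have hR0 : 0 < R := by linarith
  obtain ⟨Q, hQ⟩ : ∃ Q : ℝ, Q = R + 4 := ⟨_, rfl⟩
  have hQ0 : 0 < Q := by linarith
  have hQ1 : 1 ≤ Q := by linarith
  -- the ratios are at most `1 / Q` from `i₀` on
  have h1 : ∀ᶠ i in atTop, x (i + 1) / x i < 1 / Q :=
    (tendsto_order.mp hlim).2 _ (by positivity)
  obtain ⟨i₀, hi₀⟩ := eventually_atTop.mp h1
  have hstep : ∀ i, i₀ ≤ i → Q * x (i + 1) ≤ x i := by
    intro i hi
    have := hi₀ i hi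
    rw [div_lt_div_iff₀ (hx i) hQ0] at this
    linarith
  have hpow : ∀ k i, i₀ ≤ i → Q ^ k * x (i + k) ≤ x i := by
    intro k
    induction k with
    | zero =>
      intro i _
      simp
    | succ k ih =>
      intro i hi
      have h2 := hstep (i + k) (by omega)
      have h3 := ih i hi
      have h4 : Q ^ (k + 1) * x (i + (k + 1)) = Q ^ k * (Q * x (i + k + 1)) := by
        rw [pow_succ]
        ring
      rw [h4]
      exact (mul_le_mul_of_nonneg_left h2 (by positivity)).trans h3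
  -- the numbers of points
  obtain ⟨m, hm⟩ : ∃ m : ℕ, m = ⌈R⌉₊ := ⟨_, rfl⟩
  have hmR : R ≤ m := by
    rw [hm]
    exact Nat.le_ceil R
  have hm0 : (0 : ℝ) < m := by linarith
  -- `N` is large
  obtain ⟨N₁, hN₁⟩ := exists_nat_ge (R * m * log m)
  obtain ⟨N₂, hN₂⟩ := exists_nat_ge (R * (x i₀ * Q ^ i₀))
  obtain ⟨N, hN⟩ : ∃ N : ℕ, N = N₁ + N₂ + m + i₀ + 1 := ⟨_, rfl⟩
  have hN1 : R * m * log m ≤ N := by
    refine hN₁.trans ?_
    exact_mod_cast (by omega : N₁ ≤ N)
  have hN0 : 0 < N := by omega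
  -- smallness of `x`
  have hsmall : ∀ i, 2 * N ≤ i → x i ≤ (1 / 2 : ℝ) ^ (2 * N) / R := by
    intro i hi
    have h2 := hpow (i - i₀) i₀ le_rfl
    rw [show i₀ + (i - i₀) = i by omega] at h2
    have h3 : Q ^ i * x i ≤ x i₀ * Q ^ i₀ := by
      have h4 : Q ^ i = Q ^ (i - i₀) * Q ^ i₀ := by
        rw [← pow_add]
        congr 1
        omega
      rw [h4]
      have h5 := mul_le_mul_of_nonneg_right h2 (by positivity : (0 : ℝ) ≤ Q ^ i₀)
      calc Q ^ (i - i₀) * Q ^ i₀ * x i = Q ^ (i - i₀) * x i * Q ^ i₀ := by ring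
        _ ≤ x i₀ * Q ^ i₀ := h5
    have h5 : (4 : ℝ) ^ (2 * N) ≤ Q ^ i := by
      calc (4 : ℝ) ^ (2 * N) ≤ Q ^ (2 * N) :=
            pow_le_pow_left₀ (by norm_num) (by linarith) _
        _ ≤ Q ^ i := pow_le_pow_right₀ hQ1 hi
    have h6 : R * (x i₀ * Q ^ i₀) ≤ (2 : ℝ) ^ (2 * N) := by
      refine hN₂.trans ?_
      have h7 : (N₂ : ℝ) ≤ ((2 * N : ℕ) : ℝ) := by
        exact_mod_cast (by omega : N₂ ≤ 2 * N)
      refine h7.trans ?_
      exact_mod_cast (Nat.lt_two_pow_self (n := 2 * N)).le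
    rw [one_div, inv_pow, ← one_div, div_div, le_div_iff₀ (by positivity)]
    have h8 : (4 : ℝ) ^ (2 * N) = (2 : ℝ) ^ (2 * N) * (2 : ℝ) ^ (2 * N) := by
      rw [← mul_pow]
      norm_num
    have h9 : (4 : ℝ) ^ (2 * N) * x i ≤ x i₀ * Q ^ i₀ :=
      (mul_le_mul_of_nonneg_right h5 (hx i).le).trans h3
    rw [h8] at h9
    have h10 : R * ((2 : ℝ) ^ (2 * N) * (2 : ℝ) ^ (2 * N) * x i) ≤ (2 : ℝ) ^ (2 * N) :=
      (mul_le_mul_of_nonneg_left h9 hR0.le).trans h6
    have h11 : (0 : ℝ) < (2 : ℝ) ^ (2 * N) := by positivity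
    have h12 : (2 : ℝ) ^ (2 * N) * (x i * ((2 : ℝ) ^ (2 * N) * R)) ≤ (2 : ℝ) ^ (2 * N) * 1 := by
      linarith
    exact le_of_mul_le_mul_left h12 h11
  refine ⟨m, N, fun k => x (2 * N + (m - 1 - k.val)), fun j => (1 / 2 : ℝ) ^ (N + j.val),
    (1 / 2 : ℝ) ^ (2 * N), by positivity, hmR, hN1, ?_, ?_, ?_, ?_⟩
  · intro k
    exact ⟨hx _, hsmall _ (by omega)⟩
  · intro k l hkl
    rw [Fin.lt_def] at hkl
    have hk := k.2
    have hl := l.2
    have h2 := hpow (l.val - k.val) (2 * N + (m - 1 - l.val)) (by omega)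
    rw [show 2 * N + (m - 1 - l.val) + (l.val - k.val) = 2 * N + (m - 1 - k.val) by omega] at h2
    refine le_trans ?_ h2
    refine mul_le_mul_of_nonneg_right ?_ (hx _).le
    calc R ≤ Q := by linarith
      _ = Q ^ 1 := (pow_one Q).symm
      _ ≤ Q ^ (l.val - k.val) := pow_le_pow_right₀ hQ1 (by omega)
  · intro j k hjk
    -- the distances between the powers
    have key : ∀ a b : ℕ, N ≤ a → a < b → b < 2 * N →
        (1 / 2 : ℝ) ^ (2 * N) ≤ (1 / 2 : ℝ) ^ a - (1 / 2) ^ b ∧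
        (1 / 2 : ℝ) ^ a - (1 / 2) ^ b ≤ (1 / 2 : ℝ) ^ (2 * N) * exp (m * N / R) := by
      intro a b ha hab hb
      constructor
      · have h2 : (1 / 2 : ℝ) ^ b ≤ (1 / 2) ^ (a + 1) :=
          pow_le_pow_of_le_one (by norm_num) (by norm_num) (by omega)
        have h3 : (1 / 2 : ℝ) ^ (2 * N) ≤ (1 / 2) ^ (a + 1) :=
          pow_le_pow_of_le_one (by norm_num) (by norm_num) (by omega)
        have h4 : (1 / 2 : ℝ) ^ a = 2 * (1 / 2) ^ (a + 1) := by
          rw [pow_succ]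
          ring
        rw [h4]
        linarith
      · have h2 : (0 : ℝ) ≤ (1 / 2 : ℝ) ^ b := by positivity
        have h3 : (1 / 2 : ℝ) ^ a ≤ (1 / 2) ^ N :=
          pow_le_pow_of_le_one (by norm_num) (by norm_num) ha
        have h4 : (2 : ℝ) ^ N ≤ exp (m * N / R) := by
          have h5 : (2 : ℝ) ≤ exp 1 := by
            have := Real.add_one_le_exp (1 : ℝ)
            linarith
          calc (2 : ℝ) ^ N ≤ (exp 1) ^ N := pow_le_pow_left₀ (by norm_num) h5 _
            _ = exp (N * 1) := (Real.exp_nat_mul 1 N).symm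
            _ ≤ exp (m * N / R) := by
                refine Real.exp_le_exp.mpr ?_
                rw [le_div_iff₀ hR0]
                have : (0 : ℝ) < N := by exact_mod_cast hN0
                nlinarith
        have h5 : (1 / 2 : ℝ) ^ N = (1 / 2) ^ (2 * N) * 2 ^ N := by
          rw [two_mul, pow_add, mul_assoc, ← mul_pow]
          norm_num
        have h6 : (1 / 2 : ℝ) ^ (2 * N) * 2 ^ N ≤ (1 / 2 : ℝ) ^ (2 * N) * exp (m * N / R) :=
          mul_le_mul_of_nonneg_left h4 (by positivity)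
        linarith
    have hj := j.2
    have hk := k.2
    rcases lt_trichotomy j.val k.val with h | h | h
    · have h2 := key (N + j.val) (N + k.val) (by omega) (by omega) (by omega)
      have h3 : 0 ≤ (1 / 2 : ℝ) ^ (N + j.val) - (1 / 2) ^ (N + k.val) :=
        le_trans (by positivity) h2.1
      rw [abs_of_nonneg h3]
      exact h2
    · exact absurd (Fin.ext h) hjk
    · have h2 := key (N + k.val) (N + j.val) (by omega) (by omega) (by omega)
      have h3 : 0 ≤ (1 / 2 : ℝ) ^ (N + k.val) - (1 / 2) ^ (N + j.val) :=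
        le_trans (by positivity) h2.1
      rw [abs_sub_comm, abs_of_nonneg h3]
      exact h2
  · intro k j
    have hk := k.2
    have hj := j.2
    exact ⟨2 * N + (m - 1 - k.val), N + j.val, by omega, by omega, by ring⟩

end Pool.Agent.H55.ES
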